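import Pool.Agent.Q292.Lil.Mdl
import Pool.Agent.W819.EN.Bridge
import Pool.Agent.W918.EN.Loc
import Pool.Agent.W21.EN.Tr
import Pool.Agent.W38.EN.Cir
import Pool.Agent.W108.EN.LTail
import Pool.Agent.W320.EN.Tail
import Pool.Agent.W320.EN.Slab
import Pool.Agent.W554.EN2.Sum
import Pool.Agent.H863R2.NL.CutBK

/-! # The nested layers of critical bond percolation -/

namespace Q292.Lil
open Pool.Agent.W819.EN
open Real MeasureTheory Filter Topology
open H974 hiding ET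
open Pool.Agent.H863R2.NL (changes changes_FF cN vN)

theorem bkr : BKR := fun k a b c d => Pool.Agent.H863R2.NL.opn_LRc k a b c d

theorem geoNA : Geo NA :=
  geo_of Pool.Agent.W918.EN.t_LOC Pool.Agent.W21.EN.t_TR Pool.Agent.W21.EN.t_MONO
    Pool.Agent.W21.EN.t_SUPER Pool.Agent.W38.EN.t_CIR0 Pool.Agent.W38.EN.t_RAD

theorem ltail : LTail := Pool.Agent.W108.EN.t_LTAIL
  (Pool.Agent.W320.EN.t_TAIL (Pool.Agent.W320.EN.t_SLAB bkr Pool.Agent.W554.EN2.t_SUM))

/-- the configurations -/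
abbrev Om := sqLattice.edgeSet → Bool

/-- the events which depend on the edges of `S` -/
@[instance_reducible] def Fs (S : Finset Edg) : MeasurableSpace Om := MeasurableSpace.comap (fun ω => FF S ω) ⊤

theorem Fs_iff {S : Finset Edg} {A : Set Om} :
    MeasurableSet[Fs S] A ↔ ∃ P : Set (Finset Edg), (fun ω => FF S ω) ⁻¹' P = A := by
  constructor
  · rintro ⟨P, -, h⟩
    exact ⟨P, h⟩
  · rintro ⟨P, h⟩
    exact ⟨P, trivial, h⟩

theorem Fs_le (S : Finset Edg) : Fs S ≤ (inferInstance : MeasurableSpace Om) := by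
  intro A hA
  obtain ⟨P, rfl⟩ := Fs_iff.1 hA
  exact meas_event S (fun F => F ∈ P)

theorem FF_inter {S T : Finset Edg} (h : S ⊆ T) (ω : Om) : FF T ω ∩ S = FF S ω := by
  ext e
  rw [Finset.mem_inter, mem_FF, mem_FF]
  constructor
  · rintro ⟨⟨_, h1⟩, h2⟩
    exact ⟨h2, h1⟩
  · rintro ⟨h1, h2⟩
    exact ⟨⟨h h1, h2⟩, h1⟩

theorem FF_sub {S T : Finset Edg} (h : S ⊆ T) (ω : Om) : FF S ω ⊆ FF T ω := by
  rw [← FF_inter h]
  exact Finset.inter_subset_left

theorem FF_subset (S : Finset Edg) (ω : Om) : FF S ω ⊆ S := fun _ he => (mem_FF.1 he).1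

theorem Fs_mono {S T : Finset Edg} (h : S ⊆ T) : Fs S ≤ Fs T := by
  intro A hA
  obtain ⟨P, rfl⟩ := Fs_iff.1 hA
  refine Fs_iff.2 ⟨{F | F ∩ S ∈ P}, ?_⟩
  ext ω
  show FF T ω ∩ S ∈ P ↔ FF S ω ∈ P
  rw [FF_inter h]

theorem Fs_ind {S T : Finset Edg} (hd : Disjoint S T) {A B : Set Om}
    (hA : MeasurableSet[Fs S] A) (hB : MeasurableSet[Fs T] B) :
    (bondLaw hlf).real (A ∩ B) = (bondLaw hlf).real A * (bondLaw hlf).real B := by
  obtain ⟨P, rfl⟩ := Fs_iff.1 hA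
  obtain ⟨Q, rfl⟩ := Fs_iff.1 hB
  set U : Finset Edg := S ∪ T with hU
  have hS : S ⊆ U := Finset.subset_union_left
  have hT : T ⊆ U := Finset.subset_union_right
  have e1 : (fun ω => FF S ω) ⁻¹' P = {ω : Om | (fun F : Finset Edg => F ∩ S ∈ P) (FF U ω)} := by
    ext ω
    show FF S ω ∈ P ↔ FF U ω ∩ S ∈ P
    rw [FF_inter hS]
  have e2 : (fun ω => FF T ω) ⁻¹' Q = {ω : Om | (fun F : Finset Edg => F ∩ T ∈ Q) (FF U ω)} := by
    ext ω
    show FF T ω ∈ Q ↔ FF U ω ∩ T ∈ Q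
    rw [FF_inter hT]
  have e3 : (fun ω => FF S ω) ⁻¹' P ∩ (fun ω => FF T ω) ⁻¹' Q =
      {ω : Om | (fun F : Finset Edg => F ∩ S ∈ P ∧ F ∩ T ∈ Q) (FF U ω)} := by
    rw [e1, e2]
    rfl
  rw [e3, law_event hlf U (fun F : Finset Edg => F ∩ S ∈ P ∧ F ∩ T ∈ Q), e1,
    law_event hlf U (fun F : Finset Edg => F ∩ S ∈ P), e2,
    law_event hlf U (fun F : Finset Edg => F ∩ T ∈ Q)]
  apply Pr_indep hS hT hd
  · intro F _
    rw [Finset.inter_assoc, Finset.inter_self]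
  · intro F _
    rw [Finset.inter_assoc, Finset.inter_self]

/-! ### The annuli -/

theorem bx_sub {a b : ℤ} (h : a ≤ b) : bx (0, 0) a ⊆ bx (0, 0) b := by
  unfold bx
  apply RE_subset <;> simp only <;> linarith

theorem an_sub (r R : ℕ) : an (0, 0) r R ⊆ bx (0, 0) R := by
  unfold an
  exact Finset.sdiff_subset

theorem an_disj {n r R : ℕ} (h : n < r) : Disjoint (bx (0, 0) n) (an (0, 0) r R) := by
  unfold an
  rw [Finset.disjoint_left]
  intro e he h2
  rw [Finset.mem_sdiff] at h2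
  exact h2.2 (bx_sub (by omega) he)

/-- the layers between the distances `r` and `R` -/
noncomputable def Xr (r R : ℕ) (ω : Om) : ℕ := NA (FF (an (0, 0) r R) ω) (0, 0) r R

theorem NA_big {r R : ℕ} {S : Finset Edg} (hrR : r ≤ R) (hS : bx (0, 0) R ⊆ S) (ω : Om) :
    NA (FF S ω) (0, 0) r R = Xr r R ω := by
  rw [geoNA.loc (FF S ω) (0, 0) r R hrR, FF_inter ((an_sub r R).trans hS)]
  rfl

theorem changes_NA (n : ℕ) (ω : Om) : changes n ω = NA (FF (bx (0, 0) n) ω) (0, 0) 0 n := by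
  rw [changes_FF, NA_eq, NS_zero, bx_zero]

theorem changes_big {n : ℕ} {S : Finset Edg} (hS : bx (0, 0) n ⊆ S) (ω : Om) :
    NA (FF S ω) (0, 0) 0 n = changes n ω := by
  rw [changes_NA, NA_big (Nat.zero_le n) hS, NA_big (Nat.zero_le n) subset_rfl]

/-- the cheap links -/
def Lks (b k : ℕ) : Set Om := {ω | Lnk (0, 0) b k (FF (bx (0, 0) (8 * b : ℕ)) ω)}

theorem opn_up {k : ℕ} {S : Finset Edg} {C : Finset Edg → Prop}
    (hC : ∀ F G, F ⊆ G → C F → C G) {F G : Finset Edg} (h : F ⊆ G) (hF : Opn k S C F) :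
    Opn k S C G := by
  obtain ⟨X, h1, h2, h3⟩ := hF
  exact ⟨X, h1, h2, hC _ _ (Finset.union_subset_union h subset_rfl) h3⟩

theorem cir_up {v : Vtx} {b : ℤ} {k : ℕ} {F G : Finset Edg} (h : F ⊆ G) (hF : Cir v b k F) :
    Cir v b k G := by
  obtain ⟨⟨h1, h2⟩, h3, h4⟩ := hF
  exact ⟨⟨opn_up (fun _ _ => LRc.mono) h h1, opn_up (fun _ _ => LRc.mono) h h2⟩,
    opn_up (fun _ _ => TBc.mono) h h3, opn_up (fun _ _ => TBc.mono) h h4⟩

theorem lnk_up {v : Vtx} {b k : ℕ} {F G : Finset Edg} (h : F ⊆ G) (hF : Lnk v b k F) :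
    Lnk v b k G := by
  obtain ⟨h1, h2, h3⟩ := hF
  exact ⟨cir_up h h1, cir_up h h2, opn_up (fun _ _ => LRc.mono) h h3⟩

theorem hlf_eq : (fun _ : Edg => (hlf : ℝ)) = P2 := rfl

theorem nst : ∃ C : ℝ, Nst (bondLaw hlf) changes Xr Lks (fun n => Fs (bx (0, 0) n))
    (fun r R => Fs (an (0, 0) r R)) cN vN cN C := by
  obtain ⟨C1, hC1, hM⟩ := mom_changes
  obtain ⟨C2, hC2, hL⟩ := ltail (exp (-2)) (exp_pos _)
  refine ⟨max C1 C2, ?_⟩
  exact {
    mom := {
      meas := hM.meas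
      le := hM.le
      mono := hM.mono
      hc := hM.hc
      hv := hM.hv
      hd := hM.hd
      hC := lt_max_of_lt_left hC1
      up := fun l hl0 hl1 n hn => (hM.up l hl0 hl1 n hn).trans
        (mul_le_mul_of_nonneg_right (le_max_left _ _) (exp_pos _).le)
      dn := fun l hl0 hl1 n hn => (hM.dn l hl0 hl1 n hn).trans
        (mul_le_mul_of_nonneg_right (le_max_left _ _) (exp_pos _).le) }
    Fle := fun n => Fs_le _
    Gle := fun r R => Fs_le _
    Fmono := fun a b hab => Fs_mono (bx_sub (by exact_mod_cast hab))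
    GF := fun r R => Fs_mono (an_sub r R)
    Tm := fun n => by
      intro S _
      refine Fs_iff.2 ⟨{F | NA F (0, 0) 0 n ∈ S}, ?_⟩
      ext ω
      show NA (FF (bx (0, 0) n) ω) (0, 0) 0 n ∈ S ↔ changes n ω ∈ S
      rw [changes_NA]
    Xm := fun r R => by
      intro S _
      exact Fs_iff.2 ⟨{F | NA F (0, 0) r R ∈ S}, rfl⟩
    ind := fun n r R hn _ A B hA hB => Fs_ind (an_disj hn) hA hB
    sup := fun ω n r R hn hr => by
      have h := geoNA.super (FF (bx (0, 0) R) ω) (0, 0) 0 n r R (Nat.zero_le n) hn hr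
      rw [changes_big (bx_sub (by omega)), changes_big subset_rfl, NA_big hr subset_rfl] at h
      exact h
    Lkm := fun b k => meas_event _ _
    link := fun ω b k R hb hR hω => by
      have h1 : Lnk (0, 0) b k (FF (bx (0, 0) R) ω) :=
        lnk_up (FF_sub (bx_sub (by exact_mod_cast hR)) ω) hω
      have h := geoNA.link (FF (bx (0, 0) R) ω) (0, 0) b k 0 R hb (Nat.zero_le b) hR h1
      rw [changes_big subset_rfl, changes_big (bx_sub (by omega)),
        NA_big (by omega) subset_rfl] at h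
      exact h
    Lkp := fun b k hb => by
      have e : (Lks b k)ᶜ = {ω : Om | (fun F : Finset Edg => ¬ Lnk (0, 0) b k F)
          (FF (bx (0, 0) (8 * b : ℕ)) ω)} := rfl
      rw [e, law_event hlf (bx (0, 0) (8 * b : ℕ)) (fun F : Finset Edg => ¬ Lnk (0, 0) b k F)]
      have h := hL b (0, 0) (bx (0, 0) (8 * b : ℕ)) hb (by push_cast; exact subset_rfl) k
      refine h.trans ?_
      rw [← exp_nat_mul, mul_comm (k : ℝ)]
      exact mul_le_mul_of_nonneg_right (le_max_right _ _) (exp_pos _).le }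

end Q292.Lil
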