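import Pool.Agent.Q292.Lil.Phi
import Pool.Agent.H450R4.NLTail

/-! # Moderate deviations, upper bounds -/

namespace Q292.Lil
open Real Filter Topology MeasureTheory
open Pool.Agent.H450R4.NL (cheb meas_ge meas_le)

/-- exponential moments near zero -/
structure Mom {Ω : Type*} [MeasurableSpace Ω] (μ : Measure Ω) (T : ℕ → Ω → ℕ) (c v d C : ℝ) :
    Prop where
  meas : ∀ n, Measurable (T n)
  le : ∀ n ω, T n ω ≤ 2 * n
  mono : ∀ ω, Monotone (fun n => T n ω)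
  hc : 0 < c
  hv : 0 < v
  hd : 0 ≤ d
  hC : 0 < C
  up : ∀ l : ℝ, 0 ≤ l → l ≤ 1 / 2 → ∀ n : ℕ, 1 ≤ n →
    ∫ ω, exp (l * (T n ω : ℝ)) ∂μ ≤ C * exp ((c * l + v * l ^ 2 / 2 + d * l ^ 3) * log n)
  dn : ∀ l : ℝ, 0 ≤ l → l ≤ 1 / 2 → ∀ n : ℕ, 1 ≤ n →
    ∫ ω, exp (-l * (T n ω : ℝ)) ∂μ ≤ C * exp ((-(c * l) + v * l ^ 2 / 2 + d * l ^ 3) * log n)

section
variable {Ω : Type*} [MeasurableSpace Ω] {μ : Measure Ω} [IsProbabilityMeasure μ]
  {T : ℕ → Ω → ℕ} {c v d C : ℝ}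

/-- Chernoff bound, upper tail -/
theorem chU (h : Mom μ T c v d C) {l : ℝ} (hl0 : 0 ≤ l) (hl1 : l ≤ 1 / 2) {n : ℕ} (hn : 1 ≤ n)
    (y : ℝ) : μ.real {ω | c * log n + y ≤ (T n ω : ℝ)} ≤
      C * exp (-l * y + (v * l ^ 2 / 2 + d * l ^ 3) * log n) := by
  have h2 := cheb (μ := μ) (h.meas n) (h.le n) (s := l) (x := c * log n + y)
    (meas_ge (h.meas n) _) (fun ω hω => mul_le_mul_of_nonneg_left hω hl0)
  refine h2.trans ((mul_le_mul_of_nonneg_left (h.up l hl0 hl1 n hn) (exp_pos _).le).trans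
    (le_of_eq ?_))
  rw [mul_left_comm, ← exp_add]
  congr 2
  ring

/-- Chernoff bound, lower tail -/
theorem chD (h : Mom μ T c v d C) {l : ℝ} (hl0 : 0 ≤ l) (hl1 : l ≤ 1 / 2) {n : ℕ} (hn : 1 ≤ n)
    (y : ℝ) : μ.real {ω | (T n ω : ℝ) ≤ c * log n - y} ≤
      C * exp (-l * y + (v * l ^ 2 / 2 + d * l ^ 3) * log n) := by
  have h2 := cheb (μ := μ) (h.meas n) (h.le n) (s := -l) (x := c * log n - y)
    (meas_le (h.meas n) _) (fun ω hω => mul_le_mul_of_nonpos_left hω (by linarith))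
  refine h2.trans ((mul_le_mul_of_nonneg_left (h.dn l hl0 hl1 n hn) (exp_pos _).le).trans
    (le_of_eq ?_))
  rw [mul_left_comm, ← exp_add]
  congr 2
  ring

/-- the exponent on the scale of the law of the iterated logarithm -/
theorem expo (h : Mom μ T c v d C) {M κ : ℝ} (hM : 0 < M) (hκ : 0 ≤ κ) :
    ∀ᶠ L : ℝ in atTop, ∃ l : ℝ, 0 ≤ l ∧ l ≤ 1 / 2 ∧ ∀ x : ℝ, 0 ≤ x → M * x ≤ L →
      -l * (κ * ph v L) + (v * l ^ 2 / 2 + d * l ^ 3) * x ≤ -(κ ^ 2 * M * log (log L)) + 1 := by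
  have hv := h.hv
  have hd := h.hd
  filter_upwards [ph_cube hv (d * (κ * M / v) ^ 3 / M), ph_cube hv (2 * (κ * M / v)),
    eventually_ge_atTop (exp 1)] with L h1 h2 h3
  have h0 : 0 < L := lt_of_lt_of_le (exp_pos 1) h3
  have hp := ph_nonneg v L
  have hs := ph_sq hv h3
  set l : ℝ := κ * M / v * ph v L / L with hl
  have hl0 : 0 ≤ l := by positivity
  refine ⟨l, hl0, ?_, ?_⟩
  · rw [hl, div_le_iff₀ h0]
    linarith [h2.2]
  · intro x hx hxL
    have hx' : x ≤ L / M := by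
      rw [le_div_iff₀ hM]
      linarith
    have k1 : (v * l ^ 2 / 2 + d * l ^ 3) * x ≤ (v * l ^ 2 / 2 + d * l ^ 3) * (L / M) :=
      mul_le_mul_of_nonneg_left hx' (by positivity)
    have k2 : v * l ^ 2 / 2 * (L / M) = κ ^ 2 * M * log (log L) := by
      have : v * l ^ 2 / 2 * (L / M) = κ ^ 2 * M / (2 * v * L) * ph v L ^ 2 := by
        rw [hl]
        field_simp
      rw [this, hs]
      field_simp
    have k3 : l * (κ * ph v L) = 2 * (κ ^ 2 * M * log (log L)) := by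
      have : l * (κ * ph v L) = κ ^ 2 * M / (v * L) * ph v L ^ 2 := by
        rw [hl]
        field_simp
      rw [this, hs]
      field_simp
    have k4 : d * l ^ 3 * (L / M) ≤ 1 := by
      have : d * l ^ 3 * (L / M) = (d * (κ * M / v) ^ 3 / M * ph v L ^ 3) / L ^ 2 := by
        rw [hl]
        field_simp
      rw [this, div_le_one (by positivity)]
      exact h1.1
    have k5 : (v * l ^ 2 / 2 + d * l ^ 3) * (L / M) =
        v * l ^ 2 / 2 * (L / M) + d * l ^ 3 * (L / M) := by ring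
    have k6 : -l * (κ * ph v L) = -(l * (κ * ph v L)) := by ring
    rw [k6, k3]
    rw [k5, k2] at k1
    linarith

/-- upper tail on the scale of the law of the iterated logarithm -/
theorem tlU (h : Mom μ T c v d C) {M κ : ℝ} (hM : 0 < M) (hκ : 0 ≤ κ) :
    ∀ᶠ L : ℝ in atTop, ∀ n : ℕ, 1 ≤ n → M * log n ≤ L →
      μ.real {ω | c * log n + κ * ph v L ≤ (T n ω : ℝ)} ≤
        C * exp 1 * exp (-(κ ^ 2 * M * log (log L))) := by
  filter_upwards [expo h hM hκ] with L ⟨l, hl0, hl1, hl⟩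
  intro n hn hnL
  refine (chU h hl0 hl1 hn _).trans ?_
  rw [mul_assoc, ← exp_add]
  apply mul_le_mul_of_nonneg_left _ h.hC.le
  apply exp_le_exp.2
  have := hl (log n) (log_nonneg (by exact_mod_cast hn)) hnL
  linarith

/-- lower tail on the scale of the law of the iterated logarithm -/
theorem tlD (h : Mom μ T c v d C) {M κ : ℝ} (hM : 0 < M) (hκ : 0 ≤ κ) :
    ∀ᶠ L : ℝ in atTop, ∀ n : ℕ, 1 ≤ n → M * log n ≤ L →
      μ.real {ω | (T n ω : ℝ) ≤ c * log n - κ * ph v L} ≤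
        C * exp 1 * exp (-(κ ^ 2 * M * log (log L))) := by
  filter_upwards [expo h hM hκ] with L ⟨l, hl0, hl1, hl⟩
  intro n hn hnL
  refine (chD h hl0 hl1 hn _).trans ?_
  rw [mul_assoc, ← exp_add]
  apply mul_le_mul_of_nonneg_left _ h.hC.le
  apply exp_le_exp.2
  have := hl (log n) (log_nonneg (by exact_mod_cast hn)) hnL
  linarith

/-- tails on the scale of the square root -/
theorem sqU (h : Mom μ T c v d C) {K L : ℝ} (hL : 4 ≤ L) {n : ℕ} (hn : 1 ≤ n)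
    (hnL : log n ≤ L) : μ.real {ω | c * log n + K * √L ≤ (T n ω : ℝ)} ≤
      C * exp (-K + (v + d)) ∧
    μ.real {ω | (T n ω : ℝ) ≤ c * log n - K * √L} ≤ C * exp (-K + (v + d)) := by
  have hv := h.hv
  have hd := h.hd
  have hsq : 2 ≤ √L := by
    apply le_sqrt_of_sq_le
    linarith
  have hs0 : 0 < √L := by linarith
  have hl1 : 1 / √L ≤ 1 / 2 := one_div_le_one_div_of_le (by norm_num) hsq
  have hl0 : 0 ≤ 1 / √L := by positivity
  have hlog : 0 ≤ log (n : ℝ) := log_nonneg (by exact_mod_cast hn)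
  have key : -(1 / √L) * (K * √L) + (v * (1 / √L) ^ 2 / 2 + d * (1 / √L) ^ 3) * log n ≤
      -K + (v + d) := by
    have e1 : -(1 / √L) * (K * √L) = -K := by field_simp
    have e2 : (1 / √L) ^ 2 * L = 1 := by
      rw [div_pow, sq_sqrt (by linarith)]
      field_simp
    have e3 : (v * (1 / √L) ^ 2 / 2 + d * (1 / √L) ^ 3) * log n ≤
        (v * (1 / √L) ^ 2 / 2 + d * (1 / √L) ^ 3) * L :=
      mul_le_mul_of_nonneg_left hnL (by positivity)
    have e4 : (v * (1 / √L) ^ 2 / 2 + d * (1 / √L) ^ 3) * L =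
        v / 2 * ((1 / √L) ^ 2 * L) + d * (1 / √L) * ((1 / √L) ^ 2 * L) := by ring
    rw [e4, e2] at e3
    rw [e1]
    have e5 : d * (1 / √L) ≤ d * (1 / 2) := mul_le_mul_of_nonneg_left hl1 hd
    linarith
  constructor
  · refine (chU h hl0 hl1 hn _).trans ?_
    exact mul_le_mul_of_nonneg_left (exp_le_exp.2 key) h.hC.le
  · refine (chD h hl0 hl1 hn _).trans ?_
    exact mul_le_mul_of_nonneg_left (exp_le_exp.2 key) h.hC.le

end

end Q292.Lil
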