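import Pool.Agent.Q292.Lil.Phi
import Pool.Agent.H450R4.NLMom

/-! # Exponential moments on the cylinder, lower bounds -/

namespace Q292.Lil
open Pool.Agent.H863R2.NL Pool.Agent.H863R2.NL.PowAux Pool.Agent.H450R4.NL
open Real MeasureTheory Filter Topology

theorem fac_up_lo {p l : ℝ} (hp0 : 0 ≤ p) (hl0 : 0 ≤ l) (hl1 : l ≤ 1 / 2) (hp1 : p ≤ 1 / 3) :
    exp (l * p + l ^ 2 / 2 * (p * (1 - p)) - l ^ 3 * p) ≤ 1 + p * (exp l - 1) := by
  have h1 := quadratic_le_exp_of_nonneg hl0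
  have hlp : 0 ≤ l * p := by positivity
  set w : ℝ := 1 + l * (1 - p) / 2 - l ^ 2 with hw
  have hw0 : 0 ≤ w := by
    have : 0 ≤ l * (1 - p) := mul_nonneg hl0 (by linarith)
    nlinarith
  have hw1 : w ≤ 1 + l / 2 := by nlinarith
  set y : ℝ := l * p + l ^ 2 / 2 * (p * (1 - p)) - l ^ 3 * p with hy
  have hyw : y = l * p * w := by rw [hy, hw]; ring
  have hy0 : 0 ≤ y := by rw [hyw]; positivity
  have hy54 : y ≤ l * p * (5 / 4) := by
    rw [hyw]
    exact mul_le_mul_of_nonneg_left (by linarith) hlp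
  have hy1 : y ≤ 1 := by nlinarith
  have h2 := exp_bound' hy0 hy1 (n := 3) (by norm_num)
  simp only [Finset.sum_range_succ, Finset.sum_range_zero, Nat.factorial] at h2
  norm_num at h2
  have hl3 : 0 ≤ l ^ 3 * p := by positivity
  have h3 : y ^ 3 ≤ l ^ 3 * p / 4 := by
    calc y ^ 3 ≤ (l * p * (5 / 4)) ^ 3 := pow_le_pow_left₀ hy0 hy54 3
      _ = l ^ 3 * p * (p * p * (125 / 64)) := by ring
      _ ≤ l ^ 3 * p * (1 / 4) := by
          apply mul_le_mul_of_nonneg_left _ hl3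
          nlinarith
      _ = _ := by ring
  have h4 : y ^ 2 ≤ l ^ 2 * p ^ 2 + 3 / 8 * (l ^ 3 * p) := by
    have h5 : w ^ 2 ≤ 1 + 9 / 8 * l := by
      calc w ^ 2 ≤ (1 + l / 2) ^ 2 := pow_le_pow_left₀ hw0 hw1 2
        _ ≤ _ := by nlinarith
    calc y ^ 2 = (l * p) ^ 2 * w ^ 2 := by rw [hyw]; ring
      _ ≤ (l * p) ^ 2 * (1 + 9 / 8 * l) := mul_le_mul_of_nonneg_left h5 (by positivity)
      _ = l ^ 2 * p ^ 2 + l ^ 3 * p * (9 / 8 * p) := by ring
      _ ≤ l ^ 2 * p ^ 2 + l ^ 3 * p * (3 / 8) := by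
          have : l ^ 3 * p * (9 / 8 * p) ≤ l ^ 3 * p * (3 / 8) :=
            mul_le_mul_of_nonneg_left (by linarith) hl3
          linarith
      _ = _ := by ring
  have h6 : p * (1 + l + l ^ 2 / 2) ≤ p * exp l := mul_le_mul_of_nonneg_left h1 hp0
  have e : y = l * p + l ^ 2 * p / 2 - l ^ 2 * p ^ 2 / 2 - l ^ 3 * p := by rw [hy]; ring
  linarith

theorem exp_neg_le_quad {z : ℝ} (hz : 0 ≤ z) : exp (-z) ≤ 1 - z + z ^ 2 / 2 := by
  have h := quadratic_le_exp_of_nonneg hz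
  have h' : exp (-z) * exp z = 1 := by rw [← exp_add]; simp
  have h2 : 0 < 1 - z + z ^ 2 / 2 := by nlinarith [sq_nonneg (z - 1)]
  by_contra hcon
  push Not at hcon
  have h3 : (1 - z + z ^ 2 / 2) * (1 + z + z ^ 2 / 2) < exp (-z) * exp z :=
    mul_lt_mul hcon h (by positivity) (exp_pos _).le
  rw [h'] at h3
  have : 0 ≤ z ^ 4 := by positivity
  nlinarith

theorem fac_dn_lo {p l : ℝ} (hp0 : 0 ≤ p) (hl0 : 0 ≤ l) (hl1 : l ≤ 1 / 2) (hp1 : p ≤ 1 / 3) :
    exp (-l * p + l ^ 2 / 2 * (p * (1 - p)) - l ^ 3 * p) ≤ 1 + p * (exp (-l) - 1) := by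
  have hlp : 0 ≤ l * p := by positivity
  have hl3 : 0 ≤ l ^ 3 * p := by positivity
  have h1 : 1 - l + l ^ 2 / 2 - l ^ 3 / 2 ≤ exp (-l) := by
    have h3 := (abs_le.1 (exp_bound (x := -l) (by rw [abs_neg, abs_of_nonneg hl0]; linarith)
      (n := 3) (by norm_num))).1
    rw [abs_neg, abs_of_nonneg hl0] at h3
    simp only [Finset.sum_range_succ, Finset.sum_range_zero, Nat.factorial] at h3
    norm_num at h3
    have : 0 ≤ l ^ 3 := by positivity
    linarith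
  set w : ℝ := 1 - l * (1 - p) / 2 + l ^ 2 with hw
  have hw0 : 0 ≤ w := by
    have : l * (1 - p) ≤ 1 := by nlinarith
    nlinarith
  have hw1 : w ≤ 1 + l / 4 := by nlinarith [mul_nonneg hl0 (show 0 ≤ 1 - p by linarith)]
  set z : ℝ := l * p - l ^ 2 / 2 * (p * (1 - p)) + l ^ 3 * p with hz
  have hzw : z = l * p * w := by rw [hz, hw]; ring
  have hz0 : 0 ≤ z := by rw [hzw]; positivity
  have h2 := exp_neg_le_quad hz0
  have h4 : z ^ 2 ≤ l ^ 2 * p ^ 2 + 1 / 4 * (l ^ 3 * p) := by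
    have h5 : w ^ 2 ≤ 1 + 3 / 4 * l := by
      calc w ^ 2 ≤ (1 + l / 4) ^ 2 := pow_le_pow_left₀ hw0 hw1 2
        _ ≤ _ := by nlinarith
    calc z ^ 2 = (l * p) ^ 2 * w ^ 2 := by rw [hzw]; ring
      _ ≤ (l * p) ^ 2 * (1 + 3 / 4 * l) := mul_le_mul_of_nonneg_left h5 (by positivity)
      _ = l ^ 2 * p ^ 2 + l ^ 3 * p * (3 / 4 * p) := by ring
      _ ≤ l ^ 2 * p ^ 2 + l ^ 3 * p * (1 / 4) := by
          have : l ^ 3 * p * (3 / 4 * p) ≤ l ^ 3 * p * (1 / 4) :=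
            mul_le_mul_of_nonneg_left (by linarith) hl3
          linarith
      _ = _ := by ring
  have e0 : -l * p + l ^ 2 / 2 * (p * (1 - p)) - l ^ 3 * p = -z := by rw [hz]; ring
  rw [e0]
  have h6 : p * (1 - l + l ^ 2 / 2 - l ^ 3 / 2) ≤ p * exp (-l) := mul_le_mul_of_nonneg_left h1 hp0
  have e : z = l * p - l ^ 2 * p / 2 + l ^ 2 * p ^ 2 / 2 + l ^ 3 * p := by rw [hz]; ring
  linarith

theorem prod_lower {f : ℝ → ℝ} {A B D : ℝ} (s : Multiset ℝ)
    (h : ∀ p ∈ s, exp (A * p + B * (p * (1 - p)) - D * p) ≤ f p) :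
    exp (A * s.sum + B * (s.map (fun p => p * (1 - p))).sum - D * s.sum) ≤ (s.map f).prod := by
  induction s using Multiset.induction_on with
  | empty => simp
  | cons a s ih =>
    have ih' := ih (fun p hp => h p (Multiset.mem_cons_of_mem hp))
    simp only [Multiset.map_cons, Multiset.prod_cons, Multiset.sum_cons]
    have h1 := h a (Multiset.mem_cons_self a s)
    calc exp (A * (a + s.sum) + B * (a * (1 - a) + (s.map (fun p => p * (1 - p))).sum) -
          D * (a + s.sum)) = exp (A * a + B * (a * (1 - a)) - D * a) *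
          exp (A * s.sum + B * (s.map (fun p => p * (1 - p))).sum - D * s.sum) := by
          rw [← exp_add]
          congr 1
          ring
      _ ≤ _ := mul_le_mul h1 ih' (exp_pos _).le ((exp_pos _).le.trans h1)

/-- lower bounds of the exponential moments on the cylinder, uniformly near zero -/
theorem EN_up_lo : ∃ C : ℝ, 0 < C ∧ ∀ l : ℝ, 0 ≤ l → l ≤ 1 / 2 → ∀ n : ℕ, 1 ≤ n →
    C * exp ((cN * l + vN * l ^ 2 / 2 - cN * l ^ 3) * log n) ≤ EN n (fun m => exp l ^ m) := by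
  obtain ⟨ps, hps, ⟨C1, hC1⟩, ⟨C2, hC2⟩, -⟩ := ps_exists
  have hC10 : 0 ≤ C1 := (abs_nonneg _).trans (hC1 1 le_rfl)
  have hC20 : 0 ≤ C2 := (abs_nonneg _).trans (hC2 1 le_rfl)
  refine ⟨exp (-(C1 + C2 + C1)), exp_pos _, ?_⟩
  intro l hl0 hl1 n hn
  rw [PsSumAux.real_id (hps n hn)]
  refine le_trans ?_ (prod_lower (A := l) (B := l ^ 2 / 2) (D := l ^ 3) _ ?_)
  · rw [← exp_add]
    apply exp_le_exp.2
    have h1 := (abs_le.1 (hC1 n hn)).2
    have h1' := (abs_le.1 (hC1 n hn)).1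
    have h2 := (abs_le.1 (hC2 n hn)).1
    have h3 : l * (cN * log n) - C1 ≤ l * (ps n).sum := by
      have : l * (-C1) ≤ l * ((ps n).sum - cN * log n) := mul_le_mul_of_nonneg_left h1' hl0
      have : l * C1 ≤ 1 * C1 := mul_le_mul_of_nonneg_right (by linarith) hC10
      linarith
    have h4 : l ^ 2 / 2 * (vN * log n) - C2 ≤ l ^ 2 / 2 * ((ps n).map (fun p => p * (1 - p))).sum := by
      have h5 : l ^ 2 / 2 * (-C2) ≤ l ^ 2 / 2 * (((ps n).map (fun p => p * (1 - p))).sum -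
        vN * log n) := mul_le_mul_of_nonneg_left h2 (by positivity)
      have h6 : l ^ 2 / 2 * C2 ≤ 1 * C2 := mul_le_mul_of_nonneg_right (by nlinarith) hC20
      linarith
    have h5 : l ^ 3 * (ps n).sum ≤ l ^ 3 * (cN * log n) + C1 := by
      have h6 : l ^ 3 * ((ps n).sum - cN * log n) ≤ l ^ 3 * C1 :=
        mul_le_mul_of_nonneg_left h1 (by positivity)
      have h8 : l ^ 3 ≤ 1 := pow_le_one₀ hl0 (by linarith)
      have h7 : l ^ 3 * C1 ≤ 1 * C1 := mul_le_mul_of_nonneg_right h8 hC10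
      linarith
    linarith
  · intro p hp
    have h1 := (hps n hn).1 p hp
    exact fac_up_lo h1.1.le hl0 hl1 h1.2

theorem EN_dn_lo : ∃ C : ℝ, 0 < C ∧ ∀ l : ℝ, 0 ≤ l → l ≤ 1 / 2 → ∀ n : ℕ, 1 ≤ n →
    C * exp ((-(cN * l) + vN * l ^ 2 / 2 - cN * l ^ 3) * log n) ≤
      EN n (fun m => exp (-l) ^ m) := by
  obtain ⟨ps, hps, ⟨C1, hC1⟩, ⟨C2, hC2⟩, -⟩ := ps_exists
  have hC10 : 0 ≤ C1 := (abs_nonneg _).trans (hC1 1 le_rfl)
  have hC20 : 0 ≤ C2 := (abs_nonneg _).trans (hC2 1 le_rfl)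
  refine ⟨exp (-(C1 + C2 + C1)), exp_pos _, ?_⟩
  intro l hl0 hl1 n hn
  rw [PsSumAux.real_id (hps n hn)]
  refine le_trans ?_ (prod_lower (A := -l) (B := l ^ 2 / 2) (D := l ^ 3) _ ?_)
  · rw [← exp_add]
    apply exp_le_exp.2
    have h1 := (abs_le.1 (hC1 n hn)).2
    have h2 := (abs_le.1 (hC2 n hn)).1
    have h3 : -l * (cN * log n) - C1 ≤ -l * (ps n).sum := by
      have : l * ((ps n).sum - cN * log n) ≤ l * C1 := mul_le_mul_of_nonneg_left h1 hl0
      have : l * C1 ≤ 1 * C1 := mul_le_mul_of_nonneg_right (by linarith) hC10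
      linarith
    have h4 : l ^ 2 / 2 * (vN * log n) - C2 ≤ l ^ 2 / 2 * ((ps n).map (fun p => p * (1 - p))).sum := by
      have h5 : l ^ 2 / 2 * (-C2) ≤ l ^ 2 / 2 * (((ps n).map (fun p => p * (1 - p))).sum -
        vN * log n) := mul_le_mul_of_nonneg_left h2 (by positivity)
      have h6 : l ^ 2 / 2 * C2 ≤ 1 * C2 := mul_le_mul_of_nonneg_right (by nlinarith) hC20
      linarith
    have h5 : l ^ 3 * (ps n).sum ≤ l ^ 3 * (cN * log n) + C1 := by
      have h6 : l ^ 3 * ((ps n).sum - cN * log n) ≤ l ^ 3 * C1 :=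
        mul_le_mul_of_nonneg_left h1 (by positivity)
      have h8 : l ^ 3 ≤ 1 := pow_le_one₀ hl0 (by linarith)
      have h7 : l ^ 3 * C1 ≤ 1 * C1 := mul_le_mul_of_nonneg_right h8 hC10
      linarith
    linarith
  · intro p hp
    have h1 := (hps n hn).1 p hp
    exact fac_dn_lo h1.1.le hl0 hl1 h1.2

/-! ### Exponential change of measure -/

/-- positive linear functionals -/
structure Lin (E : (ℕ → ℝ) → ℝ) : Prop where
  mono : ∀ g g' : ℕ → ℝ, (∀ m, g m ≤ g' m) → E g ≤ E g'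
  add : ∀ g g' : ℕ → ℝ, E (fun m => g m + g' m) = E g + E g'
  mul : ∀ (a : ℝ) (g : ℕ → ℝ), E (fun m => a * g m) = a * E g

theorem lin_EN (n : ℕ) : Lin (EN n) where
  mono := fun _ _ h => EN_mono h
  add := EN_add n
  mul := EN_mul n

open H974 in
/-- the exponential change of measure -/
theorem tilt {E : (ℕ → ℝ) → ℝ} (hE : Lin E) (Z : ℕ → ℝ) {s h a1 a2 : ℝ} (hs : 0 ≤ s)
    (hh : 0 ≤ h) : E (fun m => exp (s * Z m)) ≤ exp (s * a2) * E (fun m => ind (a1 ≤ Z m)) +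
      (exp (-(h * a2)) * E (fun m => exp ((s + h) * Z m)) +
        exp (h * a1) * E (fun m => exp ((s - h) * Z m))) := by
  rw [← hE.mul, ← hE.mul, ← hE.mul, ← hE.add, ← hE.add]
  apply hE.mono
  intro m
  have p1 : 0 ≤ exp (s * a2) * ind (a1 ≤ Z m) := mul_nonneg (exp_pos _).le (ind_nonneg _)
  have p2 : 0 ≤ exp (-(h * a2)) * exp ((s + h) * Z m) := by positivity
  have p3 : 0 ≤ exp (h * a1) * exp ((s - h) * Z m) := by positivity
  by_cases h1 : a1 ≤ Z m
  · by_cases h2 : Z m ≤ a2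
    · have h3 : exp (s * Z m) ≤ exp (s * a2) * ind (a1 ≤ Z m) := by
        rw [ind_of h1, mul_one]
        exact exp_le_exp.2 (mul_le_mul_of_nonneg_left h2 hs)
      linarith
    · have h3 : exp (s * Z m) ≤ exp (-(h * a2)) * exp ((s + h) * Z m) := by
        rw [← exp_add]
        apply exp_le_exp.2
        nlinarith
      linarith
  · have h3 : exp (s * Z m) ≤ exp (h * a1) * exp ((s - h) * Z m) := by
      rw [← exp_add]
      apply exp_le_exp.2
      nlinarith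
    linarith

open H974 in
/-- moderate deviations, lower bound -/
theorem mdl {v : ℝ} (hv : 0 < v) {d c0 C0 : ℝ} (hd : 0 ≤ d) (hc0 : 0 < c0) (hC0 : 0 < C0) {κ : ℝ}
    (h0 : 0 < κ) (h1 : κ < 1) : ∀ᶠ L : ℝ in atTop, ∀ (E : (ℕ → ℝ) → ℝ) (Z : ℕ → ℝ), Lin E →
      (∀ u : ℝ, 0 ≤ u → u ≤ 1 / 2 → c0 * exp ((v * u ^ 2 / 2 - d * u ^ 3) * L) ≤
        E (fun m => exp (u * Z m)) ∧
        E (fun m => exp (u * Z m)) ≤ C0 * exp ((v * u ^ 2 / 2 + d * u ^ 3) * L)) →
      2 / log L ≤ E (fun m => ind (κ * ph v L ≤ Z m)) := by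
  set δ : ℝ := (1 - κ) / 4 with hδ
  have hδ0 : 0 < δ := by rw [hδ]; linarith
  set κ1 : ℝ := κ + δ with hκ1
  set κ2 : ℝ := κ1 + δ with hκ2
  have hκ10 : 0 < κ1 := by linarith
  have hκ20 : 0 < κ2 := by linarith
  set ζ : ℝ := 2 * κ1 * κ2 - κ1 ^ 2 with hζ
  have hζ1 : ζ < 1 := by
    have e : ζ = κ ^ 2 + 4 * κ * δ + 3 * δ ^ 2 := by rw [hζ, hκ2, hκ1]; ring
    rw [e, hδ]
    nlinarith
  -- choice of the scale
  have hll := ll_tendsto
  have g1 : Tendsto (fun L : ℝ => δ ^ 2 * log (log L)) atTop atTop :=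
    hll.const_mul_atTop (by positivity)
  have g2 : Tendsto (fun L : ℝ => (1 - ζ) * log (log L)) atTop atTop :=
    hll.const_mul_atTop (by linarith)
  filter_upwards [ph_cube hv (d * (κ2 / v) ^ 3), ph_cube hv (2 * κ2 / v),
    eventually_ge_atTop (exp (exp 1)),
    g1.eventually_ge_atTop (2 + log (4 * C0 / c0)),
    g2.eventually_ge_atTop (log (4 * exp 1 / c0))] with L q1 q2 q3 q4 q5
  intro E Z hE hZ
  have hee : exp 1 ≤ exp (exp 1) := exp_le_exp.2 (by linarith [add_one_le_exp (1 : ℝ)])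
  have hL0 : 0 < L := lt_of_lt_of_le (exp_pos _) q3
  have hlL1 : exp 1 ≤ log L := by
    rw [← log_exp (exp 1)]
    exact log_le_log (exp_pos _) q3
  have hlL0 : 0 < log L := lt_of_lt_of_le (exp_pos 1) hlL1
  set x : ℝ := log (log L) with hx
  have hs : ph v L ^ 2 = 2 * v * L * x := ph_sq hv (hee.trans q3)
  set P : ℝ := ph v L with hP
  have hP0 : 0 ≤ P := ph_nonneg _ _
  -- the parameters
  have hval : ∀ a b : ℝ, a * P / (v * L) * (b * P) = 2 * a * b * x := by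
    intro a b
    have : a * P / (v * L) * (b * P) = a * b / (v * L) * P ^ 2 := by ring
    rw [this, hs]
    field_simp
  have hval2 : ∀ a : ℝ, v * (a * P / (v * L)) ^ 2 / 2 * L = a ^ 2 * x := by
    intro a
    have : v * (a * P / (v * L)) ^ 2 / 2 * L = a ^ 2 / (2 * v * L) * P ^ 2 := by
      field_simp
    rw [this, hs]
    field_simp
  have hcub : ∀ a : ℝ, 0 ≤ a → a ≤ κ2 → d * (a * P / (v * L)) ^ 3 * L ≤ 1 := by
    intro a ha0 ha
    have h2 : a * P / (v * L) ≤ κ2 * P / (v * L) := by gcongr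
    have h3 : (a * P / (v * L)) ^ 3 ≤ (κ2 * P / (v * L)) ^ 3 := by gcongr
    have h4 : d * (a * P / (v * L)) ^ 3 * L ≤ d * (κ2 * P / (v * L)) ^ 3 * L := by gcongr
    refine h4.trans ?_
    have : d * (κ2 * P / (v * L)) ^ 3 * L = d * (κ2 / v) ^ 3 * P ^ 3 / L ^ 2 := by
      field_simp
    rw [this, div_le_one (by positivity)]
    exact q1.1
  have hhalf : ∀ a : ℝ, a ≤ κ2 → a * P / (v * L) ≤ 1 / 2 := by
    intro a ha
    have h2 : a * P / (v * L) ≤ κ2 * P / (v * L) := by gcongr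
    refine h2.trans ?_
    rw [div_le_iff₀ (by positivity)]
    have := q2.2
    rw [div_mul_eq_mul_div, div_le_iff₀ hv] at this
    linarith
  set s : ℝ := κ1 * P / (v * L) with hsd
  set h : ℝ := δ * P / (v * L) with hhd
  have hs0 : 0 ≤ s := by positivity
  have hh0 : 0 ≤ h := by positivity
  have esh : s + h = κ2 * P / (v * L) := by rw [hsd, hhd, hκ2]; ring
  have esh' : s - h = κ * P / (v * L) := by rw [hsd, hhd, hκ1]; ring
  have t := tilt hE Z (s := s) (h := h) (a1 := κ * P) (a2 := κ2 * P) hs0 hh0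
  have z1 := (hZ s hs0 (hhalf κ1 (by linarith))).1
  have z2 := (hZ (s + h) (by positivity) (by rw [esh]; exact hhalf κ2 le_rfl)).2
  have z3 := (hZ (s - h) (by rw [esh']; positivity) (by rw [esh']; exact hhalf κ (by linarith))).2
  -- exponents
  have c1 : κ1 ^ 2 * x - 1 ≤ (v * s ^ 2 / 2 - d * s ^ 3) * L := by
    have e1 := hval2 κ1
    have e2 := hcub κ1 hκ10.le (by linarith)
    have : (v * s ^ 2 / 2 - d * s ^ 3) * L = v * s ^ 2 / 2 * L - d * s ^ 3 * L := by ring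
    rw [this, hsd]
    linarith
  have c2 : (v * (s + h) ^ 2 / 2 + d * (s + h) ^ 3) * L ≤ κ2 ^ 2 * x + 1 := by
    rw [esh]
    have e1 := hval2 κ2
    have e2 := hcub κ2 hκ20.le le_rfl
    have : (v * (κ2 * P / (v * L)) ^ 2 / 2 + d * (κ2 * P / (v * L)) ^ 3) * L =
      v * (κ2 * P / (v * L)) ^ 2 / 2 * L + d * (κ2 * P / (v * L)) ^ 3 * L := by ring
    rw [this]
    linarith
  have c3 : (v * (s - h) ^ 2 / 2 + d * (s - h) ^ 3) * L ≤ κ ^ 2 * x + 1 := by
    rw [esh']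
    have e1 := hval2 κ
    have e2 := hcub κ h0.le (by linarith)
    have : (v * (κ * P / (v * L)) ^ 2 / 2 + d * (κ * P / (v * L)) ^ 3) * L =
      v * (κ * P / (v * L)) ^ 2 / 2 * L + d * (κ * P / (v * L)) ^ 3 * L := by ring
    rw [this]
    linarith
  have c4 : h * (κ2 * P) = 2 * δ * κ2 * x := hval δ κ2
  have c5 : h * (κ * P) = 2 * δ * κ * x := hval δ κ
  have c6 : s * (κ2 * P) = 2 * κ1 * κ2 * x := hval κ1 κ2
  set M : ℝ := E (fun m => exp (s * Z m)) with hM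
  have m1 : c0 * exp (κ1 ^ 2 * x - 1) ≤ M :=
    (mul_le_mul_of_nonneg_left (exp_le_exp.2 c1) hc0.le).trans z1
  -- the error terms
  have hq4 : C0 * exp (-(δ ^ 2 * x) + 2) ≤ c0 / 4 := by
    have h2 : -(δ ^ 2 * x) + 2 ≤ -log (4 * C0 / c0) := by linarith
    calc C0 * exp (-(δ ^ 2 * x) + 2) ≤ C0 * exp (-log (4 * C0 / c0)) :=
          mul_le_mul_of_nonneg_left (exp_le_exp.2 h2) hC0.le
      _ = c0 / 4 := by
          rw [exp_neg, exp_log (by positivity)]
          field_simp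
  have m2 : exp (-(h * (κ2 * P))) * E (fun m => exp ((s + h) * Z m)) ≤ M / 4 := by
    have h2 : exp (-(h * (κ2 * P))) * E (fun m => exp ((s + h) * Z m)) ≤
        exp (-(h * (κ2 * P))) * (C0 * exp (κ2 ^ 2 * x + 1)) := by
      apply mul_le_mul_of_nonneg_left _ (exp_pos _).le
      exact z2.trans (mul_le_mul_of_nonneg_left (exp_le_exp.2 c2) hC0.le)
    have h3 : exp (-(h * (κ2 * P))) * (C0 * exp (κ2 ^ 2 * x + 1)) =
        C0 * exp (-(δ ^ 2 * x) + 2) * exp (κ1 ^ 2 * x - 1) := by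
      rw [c4]
      calc exp (-(2 * δ * κ2 * x)) * (C0 * exp (κ2 ^ 2 * x + 1)) =
          C0 * (exp (-(2 * δ * κ2 * x)) * exp (κ2 ^ 2 * x + 1)) := by ring
        _ = C0 * (exp (-(δ ^ 2 * x) + 2) * exp (κ1 ^ 2 * x - 1)) := by
            rw [← exp_add, ← exp_add]
            congr 2
            rw [hκ2]
            ring
        _ = _ := by ring
    have h4 : C0 * exp (-(δ ^ 2 * x) + 2) * exp (κ1 ^ 2 * x - 1) ≤
        c0 / 4 * exp (κ1 ^ 2 * x - 1) := mul_le_mul_of_nonneg_right hq4 (exp_pos _).le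
    linarith
  have m3 : exp (h * (κ * P)) * E (fun m => exp ((s - h) * Z m)) ≤ M / 4 := by
    have h2 : exp (h * (κ * P)) * E (fun m => exp ((s - h) * Z m)) ≤
        exp (h * (κ * P)) * (C0 * exp (κ ^ 2 * x + 1)) := by
      apply mul_le_mul_of_nonneg_left _ (exp_pos _).le
      exact z3.trans (mul_le_mul_of_nonneg_left (exp_le_exp.2 c3) hC0.le)
    have h3 : exp (h * (κ * P)) * (C0 * exp (κ ^ 2 * x + 1)) =
        C0 * exp (-(δ ^ 2 * x) + 2) * exp (κ1 ^ 2 * x - 1) := by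
      rw [c5]
      calc exp (2 * δ * κ * x) * (C0 * exp (κ ^ 2 * x + 1)) =
          C0 * (exp (2 * δ * κ * x) * exp (κ ^ 2 * x + 1)) := by ring
        _ = C0 * (exp (-(δ ^ 2 * x) + 2) * exp (κ1 ^ 2 * x - 1)) := by
            rw [← exp_add, ← exp_add]
            congr 2
            rw [hκ1]
            ring
        _ = _ := by ring
    have h4 : C0 * exp (-(δ ^ 2 * x) + 2) * exp (κ1 ^ 2 * x - 1) ≤
        c0 / 4 * exp (κ1 ^ 2 * x - 1) := mul_le_mul_of_nonneg_right hq4 (exp_pos _).le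
    linarith
  have m4 : c0 / 2 * exp (κ1 ^ 2 * x - 1) ≤
      exp (s * (κ2 * P)) * E (fun m => ind (κ * P ≤ Z m)) := by
    linarith
  have m5 : c0 / 2 * exp (-(ζ * x) - 1) ≤ E (fun m => ind (κ * P ≤ Z m)) := by
    have h2 := mul_le_mul_of_nonneg_left m4 (exp_pos (-(s * (κ2 * P)))).le
    rw [← mul_assoc (exp (-(s * (κ2 * P)))) (exp (s * (κ2 * P))), ← exp_add, neg_add_cancel,
      exp_zero, one_mul, mul_left_comm, ← exp_add] at h2
    refine le_trans (le_of_eq ?_) h2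
    congr 2
    rw [c6, hζ]
    ring
  refine le_trans ?_ m5
  have h6 : log (log L) = x := rfl
  have h7 : exp x = log L := exp_log hlL0
  have h8 : 4 * exp 1 / c0 ≤ exp ((1 - ζ) * x) := by
    rw [← exp_log (show 0 < 4 * exp 1 / c0 by positivity)]
    exact exp_le_exp.2 q5
  have h9 : exp (-(ζ * x) - 1) = exp ((1 - ζ) * x) * (exp x)⁻¹ * (exp 1)⁻¹ := by
    rw [← exp_neg, ← exp_neg, ← exp_add, ← exp_add]
    congr 1
    ring
  rw [h9, h7]
  calc 2 / log L = c0 / 2 * (4 * exp 1 / c0 * (log L)⁻¹ * (exp 1)⁻¹) := by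
        field_simp
        ring
    _ ≤ _ := by gcongr

end Q292.Lil
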