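import Pool.Agent.Q292.Lil.Up

/-! # The lower half of the law of the iterated logarithm -/

set_option linter.unusedSectionVars false

namespace Q292.Lil
open Real Filter Topology MeasureTheory
open Pool.Agent.H450R4.NL (cheb meas_ge meas_le)

/-- moderate deviations, lower bounds -/
structure Sharp {Ω : Type*} [MeasurableSpace Ω] (μ : Measure Ω) (T : ℕ → Ω → ℕ) (c v : ℝ) :
    Prop where
  up : ∀ κ : ℝ, 0 < κ → κ < 1 → ∀ᶠ n : ℕ in atTop, 1 / log (log n) ≤
    μ.real {ω | c * log n + κ * ph v (log n) ≤ (T n ω : ℝ)}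
  dn : ∀ κ : ℝ, 0 < κ → κ < 1 → ∀ᶠ n : ℕ in atTop, 1 / log (log n) ≤
    μ.real {ω | (T n ω : ℝ) ≤ c * log n - κ * ph v (log n)}

/-- the radii -/
def Rq (q k : ℕ) : ℕ := 2 ^ (q ^ k)

theorem Rq_pos (q k : ℕ) : 1 ≤ Rq q k := Nat.one_le_two_pow

theorem Rq_step {q : ℕ} (hq : 4 ≤ q) (k : ℕ) : 8 * Rq q k ≤ Rq q (k + 1) := by
  unfold Rq
  have h1 : 1 ≤ q ^ k := Nat.one_le_pow _ _ (by omega)
  have h2 : q ^ k + 3 ≤ q ^ (k + 1) := by
    rw [pow_succ]
    nlinarith
  calc 8 * 2 ^ (q ^ k) = 2 ^ (q ^ k + 3) := by ring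
    _ ≤ _ := Nat.pow_le_pow_right (by norm_num) h2

theorem Rq_mono {q : ℕ} (hq : 4 ≤ q) : Monotone (Rq q) := by
  apply monotone_nat_of_le_succ
  intro k
  have := Rq_step hq k
  omega

theorem log_Rq (q k : ℕ) : log (Rq q k : ℝ) = (q : ℝ) ^ k * log 2 := by
  unfold Rq
  push_cast
  rw [log_pow]
  push_cast
  rfl

theorem Rq_tendsto {q : ℕ} (hq : 4 ≤ q) : Tendsto (Rq q) atTop atTop := by
  refine (tendsto_pow_atTop_atTop_of_one_lt (by norm_num : (1 : ℕ) < 2)).comp ?_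
  exact tendsto_pow_atTop_atTop_of_one_lt (by omega)

theorem logRq_tendsto {q : ℕ} (hq : 4 ≤ q) : Tendsto (fun k => log (Rq q k : ℝ)) atTop atTop :=
  tendsto_log_atTop.comp (tendsto_natCast_atTop_atTop.comp (Rq_tendsto hq))

section
variable {Ω : Type*} [m0 : MeasurableSpace Ω] {μ : Measure Ω} [IsProbabilityMeasure μ]
  {T : ℕ → Ω → ℕ} {X : ℕ → ℕ → Ω → ℕ} {Lk : ℕ → ℕ → Set Ω} {F : ℕ → MeasurableSpace Ω}
  {G : ℕ → ℕ → MeasurableSpace Ω} {c v d C : ℝ}

/-- the second Borel-Cantelli lemma for the annuli -/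
theorem bc2 (h : Nst μ T X Lk F G c v d C) {q : ℕ} (hq : 4 ≤ q) {A : ℕ → Set Ω}
    (hA : ∀ k, MeasurableSet[G (4 * Rq q k) (Rq q (k + 1))] (A k)) {δ : ℝ} (hδ : 0 < δ)
    (hp : ∀ᶠ k : ℕ in atTop, δ * (1 / ((k : ℝ) + 1)) ≤ μ.real (A k)) :
    ∀ᵐ ω ∂μ, ∃ᶠ k in atTop, ω ∈ A k := by
  obtain ⟨k0, hk0⟩ := eventually_atTop.1 hp
  set V : ℕ → ℕ → Set Ω := fun a b => {ω | ∀ k, a ≤ k → k < b → ω ∉ A k} with hV
  have hAF : ∀ k, MeasurableSet[F (Rq q (k + 1))] (A k) := fun k => h.GF _ _ _ (hA k)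
  have hVm : ∀ a b, MeasurableSet[F (Rq q b)] (V a b) := by
    intro a b
    have : V a b = ⋂ k ∈ Finset.Ico a b, (A k)ᶜ := by
      ext ω
      simp [hV]
    rw [this]
    apply Finset.measurableSet_biInter
    intro k hk
    rw [Finset.mem_Ico] at hk
    exact h.Fmono (Rq_mono hq (show k + 1 ≤ b by omega)) _ (hAF k).compl
  have hVs : ∀ a b, a ≤ b → V a (b + 1) = V a b ∩ (A b)ᶜ := by
    intro a b hab
    ext ω
    simp only [hV, Set.mem_ofPred_eq, Set.mem_inter_iff, Set.mem_compl_iff]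
    constructor
    · intro hω
      exact ⟨fun k h1 h2 => hω k h1 (by omega), hω b hab (by omega)⟩
    · rintro ⟨h1, h2⟩ k h3 h4
      rcases Nat.lt_or_ge k b with h5 | h5
      · exact h1 k h3 h5
      · have : k = b := by omega
        rw [this]
        exact h2
  have hbd : ∀ a, k0 ≤ a → ∀ b, a ≤ b → μ.real (V a b) ≤
      exp (-(δ * (∑ i ∈ Finset.range b, 1 / ((i : ℝ) + 1) -
        ∑ i ∈ Finset.range a, 1 / ((i : ℝ) + 1)))) := by
    intro a ha b hab
    induction b, hab using Nat.le_induction with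
    | base =>
      simp only [sub_self, mul_zero, neg_zero, exp_zero]
      exact measureReal_le_one
    | succ b hab ih =>
      rw [hVs a b hab, h.ind (Rq q b) (4 * Rq q b) (Rq q (b + 1)) (by have := Rq_pos q b; omega)
        (by have := Rq_step hq b; omega) _ _ (hVm a b) (hA b).compl]
      have h1 : μ.real (A b)ᶜ ≤ exp (-(δ * (1 / ((b : ℝ) + 1)))) := by
        rw [probReal_compl_eq_one_sub (h.Fle _ _ (hAF b))]
        have h2 := hk0 b (by omega)
        have h3 := add_one_le_exp (-(δ * (1 / ((b : ℝ) + 1))))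
        linarith
      rw [Finset.sum_range_succ]
      calc μ.real (V a b) * μ.real (A b)ᶜ ≤
          exp (-(δ * (∑ i ∈ Finset.range b, 1 / ((i : ℝ) + 1) -
            ∑ i ∈ Finset.range a, 1 / ((i : ℝ) + 1)))) * exp (-(δ * (1 / ((b : ℝ) + 1)))) :=
            mul_le_mul ih h1 measureReal_nonneg (exp_pos _).le
        _ = _ := by
            rw [← exp_add]
            congr 1
            ring
  have hzero : ∀ a, k0 ≤ a → μ {ω | ∀ k, a ≤ k → ω ∉ A k} = 0 := by
    intro a ha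
    rw [← measureReal_eq_zero_iff (measure_ne_top _ _)]
    apply le_antisymm _ measureReal_nonneg
    have hlim : Tendsto (fun b : ℕ => exp (-(δ * (∑ i ∈ Finset.range b, 1 / ((i : ℝ) + 1) -
        ∑ i ∈ Finset.range a, 1 / ((i : ℝ) + 1))))) atTop (𝓝 0) := by
      apply tendsto_exp_neg_atTop_nhds_zero.comp
      apply Tendsto.const_mul_atTop hδ
      exact tendsto_atTop_add_const_right _ _ tendsto_sum_range_one_div_nat_succ_atTop
    apply ge_of_tendsto hlim
    filter_upwards [eventually_ge_atTop a] with b hb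
    refine le_trans ?_ (hbd a ha b hb)
    apply measureReal_mono _ (measure_ne_top _ _)
    intro ω hω k h1 _
    exact hω k h1
  have hall : ∀ᵐ ω ∂μ, ∀ a, k0 ≤ a → ∃ k, a ≤ k ∧ ω ∈ A k := by
    rw [ae_all_iff]
    intro a
    by_cases ha : k0 ≤ a
    · have := hzero a ha
      rw [ae_iff]
      refine measure_mono_null ?_ this
      intro ω hω
      simp only [Set.mem_ofPred_eq, not_forall, not_exists, not_and] at hω ⊢
      obtain ⟨_, hω⟩ := hω
      exact hω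
    · filter_upwards with ω h1
      exact absurd h1 ha
  filter_upwards [hall] with ω hω
  rw [frequently_atTop]
  intro a
  obtain ⟨k, hk, hk2⟩ := hω (max a k0) (le_max_right _ _)
  exact ⟨k, le_trans (le_max_left _ _) hk, hk2⟩

/-- bounds used in both cases -/
theorem scaleq {q : ℕ} (hq : 4 ≤ q) (k : ℕ) :
    (q : ℝ) / 2 * log ((2 * Rq q k : ℕ) : ℝ) ≤ log (Rq q (k + 1) : ℝ) := by
  have h1 : (1 : ℝ) ≤ Rq q k := by exact_mod_cast Rq_pos q k
  have hlog2 : 0 < log 2 := log_pos (by norm_num)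
  have hq' : (4 : ℝ) ≤ q := by exact_mod_cast hq
  push_cast
  rw [log_mul (by norm_num) (by linarith), log_Rq, log_Rq]
  have h2 : (1 : ℝ) ≤ (q : ℝ) ^ k := one_le_pow₀ (by linarith)
  have h3 : log 2 + (q : ℝ) ^ k * log 2 ≤ 2 * ((q : ℝ) ^ k * log 2) := by nlinarith
  calc (q : ℝ) / 2 * (log 2 + (q : ℝ) ^ k * log 2) ≤ (q : ℝ) / 2 * (2 * ((q : ℝ) ^ k * log 2)) :=
        mul_le_mul_of_nonneg_left h3 (by positivity)
    _ = _ := by ring

theorem two_lt_four {q : ℕ} (k : ℕ) :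
    log ((2 * Rq q k : ℕ) : ℝ) + log 2 = log ((4 * Rq q k : ℕ) : ℝ) := by
  have h1 : (1 : ℝ) ≤ Rq q k := by exact_mod_cast Rq_pos q k
  push_cast
  rw [← log_mul (by positivity) (by norm_num)]
  congr 1
  ring

/-- the errors are negligible -/
theorem errs (hC : 0 < C) : ∀ᶠ L : ℝ in atTop, 1 / (2 * log L) ≤
    1 / log L - C * exp 1 * exp (-(2 * log (log L))) - C * exp (-2 * (⌈log L⌉₊ : ℝ)) := by
  filter_upwards [tendsto_log_atTop.eventually_ge_atTop (2 * (C * exp 1 + C) + 1)] with L hL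
  set x : ℝ := log L with hx
  have hCe : 0 < C * exp 1 := by positivity
  have hx1 : 1 ≤ x := by linarith
  have hx0 : 0 < x := by linarith
  have e1 : exp (-(2 * log x)) = 1 / x ^ 2 := by
    rw [exp_neg, one_div]
    congr 1
    rw [two_mul, exp_add, exp_log hx0]
    ring
  have e2 : exp (-2 * (⌈x⌉₊ : ℝ)) ≤ 1 / x ^ 2 := by
    have h1 : x ≤ (⌈x⌉₊ : ℝ) := Nat.le_ceil _
    have h2 : log x ≤ x := (log_le_sub_one_of_pos hx0).trans (by linarith)
    rw [← e1]
    apply exp_le_exp.2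
    linarith
  have e3 : C * exp (-2 * (⌈x⌉₊ : ℝ)) ≤ C * (1 / x ^ 2) := mul_le_mul_of_nonneg_left e2 hC.le
  rw [e1]
  have e4 : (C * exp 1 + C) * (1 / x ^ 2) ≤ 1 / (2 * x) := by
    rw [mul_one_div, div_le_div_iff₀ (by positivity) (by positivity)]
    nlinarith
  have e5 : 1 / x - 1 / (2 * x) = 1 / (2 * x) := by
    field_simp
    ring
  nlinarith

theorem exists_q (κ2 D : ℝ) (h : 0 < κ2) : ∃ q : ℕ, 4 ≤ q ∧ 2 ≤ κ2 ^ 2 * ((q : ℝ) / 2) ∧
    D ≤ √((q : ℝ) / 2) := by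
  obtain ⟨q, hq⟩ := exists_nat_ge (max 4 (max (4 / κ2 ^ 2) (2 * D ^ 2)))
  have h1 : (4 : ℝ) ≤ q := le_trans (le_max_left _ _) hq
  have h2 : 4 / κ2 ^ 2 ≤ q := le_trans (le_trans (le_max_left _ _) (le_max_right _ _)) hq
  have h3 : 2 * D ^ 2 ≤ q := le_trans (le_trans (le_max_right _ _) (le_max_right _ _)) hq
  refine ⟨q, by exact_mod_cast h1, ?_, ?_⟩
  · rw [div_le_iff₀ (by positivity)] at h2
    nlinarith
  · apply le_sqrt_of_sq_le
    linarith

theorem freqU (h : Nst μ T X Lk F G c v d C) (hS : Sharp μ T c v) {κ0 : ℝ} (h0 : 0 < κ0)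
    (h1 : κ0 < 1) : ∀ᵐ ω ∂μ, ∃ᶠ n : ℕ in atTop, c * log n + κ0 * ph v (log n) ≤ (T n ω : ℝ) := by
  have hc := h.mom.hc
  have hv := h.mom.hv
  have hC := h.mom.hC
  have hlog2 : 0 < log 2 := log_pos (by norm_num)
  set κ : ℝ := (κ0 + 1) / 2 with hκ
  set κ' : ℝ := (κ + 1) / 2 with hκ'
  set κ2 : ℝ := (κ' - κ) / 2 with hκ2
  have a1 : κ0 < κ := by rw [hκ]; linarith
  have a2 : κ < κ' := by rw [hκ', hκ]; linarith
  have a3 : κ' < 1 := by rw [hκ', hκ]; linarith
  have a4 : 0 < κ2 := by rw [hκ2]; linarith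
  obtain ⟨q, hq4, hq1, hq2⟩ := exists_q κ2 (4 / (κ - κ0)) a4
  have hq0 : (4 : ℝ) ≤ q := by exact_mod_cast hq4
  set L : ℕ → ℝ := fun k => log (Rq q (k + 1) : ℝ) with hL
  have hLt : Tendsto L atTop atTop := (logRq_tendsto hq4).comp (tendsto_add_atTop_nat 1)
  have hRt : Tendsto (fun k => Rq q (k + 1)) atTop atTop :=
    (Rq_tendsto hq4).comp (tendsto_add_atTop_nat 1)
  set A : ℕ → Set Ω := fun k => {ω | c * (L k - log ((4 * Rq q k : ℕ) : ℝ)) + κ * ph v (L k) ≤
    (X (4 * Rq q k) (Rq q (k + 1)) ω : ℝ)} with hA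
  have hlq : 0 < log (q : ℝ) := log_pos (by linarith)
  have hfreq : ∀ᵐ ω ∂μ, ∃ᶠ k in atTop, ω ∈ A k := by
    apply bc2 h hq4 (fun k => measX h (4 * Rq q k) (Rq q (k + 1))
      {m : ℕ | c * (L k - log ((4 * Rq q k : ℕ) : ℝ)) + κ * ph v (L k) ≤ (m : ℝ)})
      (δ := 1 / (2 * log q)) (by positivity)
    filter_upwards [hRt.eventually (hS.up κ' (by linarith) a3),
      hLt.eventually (tlU h.mom (M := (q : ℝ) / 2) (κ := κ2) (by positivity) a4.le),
      hLt.eventually (errs hC), hLt.eventually (log_le_ph hv 18 (κ2 / 2) (by linarith)),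
      hLt.eventually (const_le_ph hv 22 (κ2 / 2) (by linarith)),
      hLt.eventually_ge_atTop (exp (exp 1))] with k h2 h3 h4 h5 h6 h7
    set s : ℕ := ⌈log (L k)⌉₊ with hs
    have hee : exp 1 ≤ exp (exp 1) := exp_le_exp.2 (by linarith [add_one_le_exp (1 : ℝ)])
    have hlL1 : exp 1 ≤ log (L k) := by
      rw [← log_exp (exp 1)]
      exact log_le_log (exp_pos _) h7
    have hlL0 : 0 < log (L k) := lt_of_lt_of_le (exp_pos 1) hlL1
    have hll1 : 1 ≤ log (log (L k)) := by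
      rw [← log_exp 1]
      exact log_le_log (exp_pos _) hlL1
    have h8 := h3 (2 * Rq q k) (by have := Rq_pos q k; omega) (scaleq hq4 k)
    have h9 := h.Lkp (Rq q k) s (Rq_pos q k)
    have hs1 : (s : ℝ) ≤ log (L k) + 1 := (Nat.ceil_lt_add_one hlL0.le).le
    have hsub : {ω | c * L k + κ' * ph v (L k) ≤ (T (Rq q (k + 1)) ω : ℝ)} ⊆
        (A k ∪ {ω | c * log ((2 * Rq q k : ℕ) : ℝ) + κ2 * ph v (L k) ≤
          (T (2 * Rq q k) ω : ℝ)}) ∪ (Lk (Rq q k) s)ᶜ := by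
      intro ω hω
      by_contra hcon
      simp only [hA, Set.mem_union, Set.mem_compl_iff, Set.mem_ofPred_eq, not_or, not_le,
        not_not] at hω hcon
      obtain ⟨⟨b1, b2⟩, b3⟩ := hcon
      have b4 : (T (Rq q (k + 1)) ω : ℝ) ≤ T (2 * Rq q k) ω +
          X (4 * Rq q k) (Rq q (k + 1)) ω + (4 + 18 * s) := by
        exact_mod_cast h.link ω (Rq q k) s (Rq q (k + 1)) (Rq_pos q k) (Rq_step hq4 k) b3
      have b5 := two_lt_four (q := q) k
      rw [← b5] at b1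
      have e1 : c * (L k - (log ((2 * Rq q k : ℕ) : ℝ) + log 2)) =
        c * L k - c * log ((2 * Rq q k : ℕ) : ℝ) - c * log 2 := by ring
      rw [e1] at b1
      have e2 : 0 ≤ c * log 2 := by positivity
      have e3 : κ' * ph v (L k) = κ * ph v (L k) + κ2 * ph v (L k) + κ2 * ph v (L k) := by
        rw [hκ2]; ring
      linarith
    have hprob : μ.real {ω | c * L k + κ' * ph v (L k) ≤ (T (Rq q (k + 1)) ω : ℝ)} ≤
        μ.real (A k) + μ.real {ω | c * log ((2 * Rq q k : ℕ) : ℝ) + κ2 * ph v (L k) ≤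
          (T (2 * Rq q k) ω : ℝ)} + μ.real (Lk (Rq q k) s)ᶜ := by
      refine (measureReal_mono hsub (measure_ne_top _ _)).trans ?_
      refine (measureReal_union_le _ _).trans ?_
      gcongr
      exact measureReal_union_le _ _
    have h10 : C * exp 1 * exp (-(κ2 ^ 2 * ((q : ℝ) / 2) * log (log (L k)))) ≤
        C * exp 1 * exp (-(2 * log (log (L k)))) := by
      apply mul_le_mul_of_nonneg_left _ (by positivity)
      apply exp_le_exp.2
      nlinarith
    have h11 : 1 / (2 * log (L k)) ≤ μ.real (A k) := by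
      have : 1 / log (L k) ≤ μ.real {ω | c * L k + κ' * ph v (L k) ≤
        (T (Rq q (k + 1)) ω : ℝ)} := h2
      linarith
    refine le_trans ?_ h11
    have h12 : log (L k) ≤ ((k : ℝ) + 1) * log q := by
      have h13 : L k = (q : ℝ) ^ (k + 1) * log 2 := log_Rq q (k + 1)
      rw [h13, log_mul (by positivity) hlog2.ne', log_pow]
      push_cast
      have : log (log 2) ≤ 0 := log_nonpos hlog2.le (by
        have := log_two_lt_d9
        linarith)
      linarith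
    rw [one_div_mul_one_div, one_div_le_one_div (by positivity) (by positivity)]
    nlinarith
  filter_upwards [hfreq, lower h (κ := 2) (by norm_num)] with ω hω hlow
  have hlow2 := (Rq_tendsto hq4).eventually hlow
  have hmain : ∃ᶠ k in atTop, c * log (Rq q (k + 1) : ℝ) + κ0 * ph v (log (Rq q (k + 1) : ℝ)) ≤
      (T (Rq q (k + 1)) ω : ℝ) := by
    refine (hω.and_eventually ((hlow2.and ((hLt.eventually (const_le_ph hv (c * log 4)
      ((κ - κ0) / 2) (by linarith))))).and (((logRq_tendsto hq4).eventually_ge_atTop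
      (exp 1))))).mono ?_
    rintro k ⟨b1, ⟨b2, b3⟩, b4⟩
    have b1' : c * (L k - log ((4 * Rq q k : ℕ) : ℝ)) + κ * ph v (L k) ≤
      (X (4 * Rq q k) (Rq q (k + 1)) ω : ℝ) := b1
    have b5 : (T (Rq q k) ω : ℝ) + X (4 * Rq q k) (Rq q (k + 1)) ω ≤ T (Rq q (k + 1)) ω := by
      exact_mod_cast h.sup ω (Rq q k) (4 * Rq q k) (Rq q (k + 1)) (by have := Rq_pos q k; omega)
        (by have := Rq_step hq4 k; omega)
    have b6 : log ((4 * Rq q k : ℕ) : ℝ) = log (Rq q k : ℝ) + log 4 := by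
      have h1 : (1 : ℝ) ≤ Rq q k := by exact_mod_cast Rq_pos q k
      push_cast
      rw [log_mul (by norm_num) (by linarith)]
      ring
    have b7 : L k / ((q : ℝ) / 2) = 2 * log (Rq q k : ℝ) := by
      simp only [hL]
      rw [log_Rq, log_Rq]
      field_simp
      ring
    have b8 : √((q : ℝ) / 2) * ph v (L k / ((q : ℝ) / 2)) ≤ ph v (L k) :=
      ph_div hv (by linarith) (by rw [b7]; linarith [exp_pos 1])
    have b9 : ph v (log (Rq q k : ℝ)) ≤ ph v (L k / ((q : ℝ) / 2)) :=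
      ph_mono hv b4 (by rw [b7]; linarith [exp_pos 1])
    have b10 : 4 / (κ - κ0) * ph v (log (Rq q k : ℝ)) ≤ ph v (L k) := by
      refine le_trans ?_ b8
      exact mul_le_mul hq2 b9 (ph_nonneg _ _) (sqrt_nonneg _)
    have b11 : 2 * ph v (log (Rq q k : ℝ)) ≤ (κ - κ0) / 2 * ph v (L k) := by
      have h2 : 0 < κ - κ0 := by linarith
      rw [div_mul_eq_mul_div, div_le_iff₀ h2] at b10
      nlinarith
    rw [b6] at b1'
    have e1 : c * (L k - (log (Rq q k : ℝ) + log 4)) = c * L k - c * log (Rq q k : ℝ) -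
      c * log 4 := by ring
    rw [e1] at b1'
    show c * L k + κ0 * ph v (L k) ≤ (T (Rq q (k + 1)) ω : ℝ)
    have e2 : κ * ph v (L k) = κ0 * ph v (L k) + (κ - κ0) / 2 * ph v (L k) +
      (κ - κ0) / 2 * ph v (L k) := by ring
    linarith
  exact hRt.frequently hmain

theorem freqD (h : Nst μ T X Lk F G c v d C) (hS : Sharp μ T c v) {κ0 : ℝ} (h0 : 0 < κ0)
    (h1 : κ0 < 1) : ∀ᵐ ω ∂μ, ∃ᶠ n : ℕ in atTop, (T n ω : ℝ) ≤ c * log n - κ0 * ph v (log n) := by
  have hc := h.mom.hc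
  have hv := h.mom.hv
  have hC := h.mom.hC
  have hlog2 : 0 < log 2 := log_pos (by norm_num)
  set κ : ℝ := (κ0 + 1) / 2 with hκ
  set κ' : ℝ := (κ + 1) / 2 with hκ'
  set κ2 : ℝ := (κ' - κ) / 2 with hκ2
  have a1 : κ0 < κ := by rw [hκ]; linarith
  have a2 : κ < κ' := by rw [hκ', hκ]; linarith
  have a3 : κ' < 1 := by rw [hκ', hκ]; linarith
  have a4 : 0 < κ2 := by rw [hκ2]; linarith
  obtain ⟨q, hq4, hq1, hq2⟩ := exists_q κ2 (4 / (κ - κ0)) a4
  have hq0 : (4 : ℝ) ≤ q := by exact_mod_cast hq4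
  set L : ℕ → ℝ := fun k => log (Rq q (k + 1) : ℝ) with hL
  have hLt : Tendsto L atTop atTop := (logRq_tendsto hq4).comp (tendsto_add_atTop_nat 1)
  have hRt : Tendsto (fun k => Rq q (k + 1)) atTop atTop :=
    (Rq_tendsto hq4).comp (tendsto_add_atTop_nat 1)
  set A : ℕ → Set Ω := fun k => {ω | (X (4 * Rq q k) (Rq q (k + 1)) ω : ℝ) ≤
    c * (L k - log ((4 * Rq q k : ℕ) : ℝ)) - κ * ph v (L k)} with hA
  have hlq : 0 < log (q : ℝ) := log_pos (by linarith)
  have hfreq : ∀ᵐ ω ∂μ, ∃ᶠ k in atTop, ω ∈ A k := by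
    apply bc2 h hq4 (fun k => measX h (4 * Rq q k) (Rq q (k + 1))
      {m : ℕ | (m : ℝ) ≤ c * (L k - log ((4 * Rq q k : ℕ) : ℝ)) - κ * ph v (L k)})
      (δ := 1 / (2 * log q)) (by positivity)
    filter_upwards [hRt.eventually (hS.dn κ' (by linarith) a3),
      hLt.eventually (tlD h.mom (M := (q : ℝ) / 2) (κ := κ2) (by positivity) a4.le),
      hLt.eventually (errs hC),
      hLt.eventually (const_le_ph hv (c * log 2) κ2 (by linarith)),
      hLt.eventually_ge_atTop (exp (exp 1))] with k h2 h3 h4 h6 h7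
    have hlL1 : exp 1 ≤ log (L k) := by
      rw [← log_exp (exp 1)]
      exact log_le_log (exp_pos _) h7
    have hlL0 : 0 < log (L k) := lt_of_lt_of_le (exp_pos 1) hlL1
    have hll1 : 1 ≤ log (log (L k)) := by
      rw [← log_exp 1]
      exact log_le_log (exp_pos _) hlL1
    have h8 := h3 (2 * Rq q k) (by have := Rq_pos q k; omega) (scaleq hq4 k)
    have hsub : {ω | (T (Rq q (k + 1)) ω : ℝ) ≤ c * L k - κ' * ph v (L k)} ⊆
        (A k ∪ {ω | (T (2 * Rq q k) ω : ℝ) ≤ c * log ((2 * Rq q k : ℕ) : ℝ) -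
          κ2 * ph v (L k)}) := by
      intro ω hω
      by_contra hcon
      simp only [hA, Set.mem_union, Set.mem_ofPred_eq, not_or, not_le] at hω hcon
      obtain ⟨b1, b2⟩ := hcon
      have b4 : (T (2 * Rq q k) ω : ℝ) + X (4 * Rq q k) (Rq q (k + 1)) ω ≤
          T (Rq q (k + 1)) ω := by
        exact_mod_cast h.sup ω (2 * Rq q k) (4 * Rq q k) (Rq q (k + 1))
          (by have := Rq_pos q k; omega) (by have := Rq_step hq4 k; omega)
      have b5 := two_lt_four (q := q) k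
      rw [← b5] at b1
      have e1 : c * (L k - (log ((2 * Rq q k : ℕ) : ℝ) + log 2)) =
        c * L k - c * log ((2 * Rq q k : ℕ) : ℝ) - c * log 2 := by ring
      rw [e1] at b1
      have e3 : κ' * ph v (L k) = κ * ph v (L k) + κ2 * ph v (L k) + κ2 * ph v (L k) := by
        rw [hκ2]; ring
      linarith
    have hprob : μ.real {ω | (T (Rq q (k + 1)) ω : ℝ) ≤ c * L k - κ' * ph v (L k)} ≤
        μ.real (A k) + μ.real {ω | (T (2 * Rq q k) ω : ℝ) ≤ c * log ((2 * Rq q k : ℕ) : ℝ) -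
          κ2 * ph v (L k)} := by
      refine (measureReal_mono hsub (measure_ne_top _ _)).trans ?_
      exact measureReal_union_le _ _
    have h10 : C * exp 1 * exp (-(κ2 ^ 2 * ((q : ℝ) / 2) * log (log (L k)))) ≤
        C * exp 1 * exp (-(2 * log (log (L k)))) := by
      apply mul_le_mul_of_nonneg_left _ (by positivity)
      apply exp_le_exp.2
      nlinarith
    have h13 : 0 ≤ C * exp (-2 * (⌈log (L k)⌉₊ : ℝ)) := by positivity
    have h11 : 1 / (2 * log (L k)) ≤ μ.real (A k) := by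
      have : 1 / log (L k) ≤ μ.real {ω | (T (Rq q (k + 1)) ω : ℝ) ≤
        c * L k - κ' * ph v (L k)} := h2
      linarith
    refine le_trans ?_ h11
    have h12 : log (L k) ≤ ((k : ℝ) + 1) * log q := by
      have h13 : L k = (q : ℝ) ^ (k + 1) * log 2 := log_Rq q (k + 1)
      rw [h13, log_mul (by positivity) hlog2.ne', log_pow]
      push_cast
      have : log (log 2) ≤ 0 := log_nonpos hlog2.le (by
        have := log_two_lt_d9
        linarith)
      linarith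
    rw [one_div_mul_one_div, one_div_le_one_div (by positivity) (by positivity)]
    nlinarith
  -- the links
  have hlk : ∀ᵐ ω ∂μ, ∀ᶠ k in atTop, ω ∉ (Lk (Rq q k) ⌈log (L k)⌉₊)ᶜ := by
    have hsum : Summable (fun k : ℕ => C / log 2 ^ 2 * ((q : ℝ)⁻¹) ^ k) :=
      (summable_geometric_of_lt_one (by positivity)
        (inv_lt_one_of_one_lt₀ (by linarith))).mul_left _
    apply ae_of_sum hsum
    filter_upwards [hLt.eventually_ge_atTop 1] with k hk
    refine (h.Lkp _ _ (Rq_pos q k)).trans ?_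
    have h2 : log (L k) ≤ (⌈log (L k)⌉₊ : ℝ) := Nat.le_ceil _
    have h13 : L k = (q : ℝ) ^ (k + 1) * log 2 := log_Rq q (k + 1)
    have h3 : exp (-2 * (⌈log (L k)⌉₊ : ℝ)) ≤ (L k ^ 2)⁻¹ := by
      rw [← exp_log (show 0 < L k ^ 2 by positivity), ← exp_neg, log_pow]
      apply exp_le_exp.2
      push_cast
      linarith
    have h4 : (L k ^ 2)⁻¹ ≤ (log 2 ^ 2 * (q : ℝ) ^ k)⁻¹ := by
      apply inv_anti₀ (by positivity)
      rw [h13, mul_pow]
      have h5 : (q : ℝ) ^ k ≤ ((q : ℝ) ^ (k + 1)) ^ 2 := by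
        rw [← pow_mul]
        exact pow_le_pow_right₀ (by linarith) (by omega)
      nlinarith [sq_nonneg (log 2)]
    calc C * exp (-2 * (⌈log (L k)⌉₊ : ℝ)) ≤ C * (log 2 ^ 2 * (q : ℝ) ^ k)⁻¹ :=
          mul_le_mul_of_nonneg_left (h3.trans h4) hC.le
      _ = _ := by
          rw [mul_inv, inv_pow]
          field_simp
  filter_upwards [hfreq, upper h (κ := 2) (by norm_num), hlk] with ω hω hlow hlkω
  have hmap : Tendsto (fun k => 2 * Rq q k) atTop atTop :=
    tendsto_atTop_mono (fun k => by omega) (Rq_tendsto hq4)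
  have hlow2 := hmap.eventually hlow
  have hmain : ∃ᶠ k in atTop, (T (Rq q (k + 1)) ω : ℝ) ≤
      c * log (Rq q (k + 1) : ℝ) - κ0 * ph v (log (Rq q (k + 1) : ℝ)) := by
    refine (hω.and_eventually ((hlow2.and (hLt.eventually (log_le_ph hv 18
      ((κ - κ0) / 4) (by linarith)))).and ((hlkω.and (hLt.eventually (const_le_ph hv 22
      ((κ - κ0) / 4) (by linarith)))).and (((logRq_tendsto hq4).eventually_ge_atTop
      (exp 1)).and (hLt.eventually_ge_atTop 1))))).mono ?_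
    rintro k ⟨b1, ⟨b2, b3⟩, ⟨b3', b3c⟩, b4, b4'⟩
    have b1' : (X (4 * Rq q k) (Rq q (k + 1)) ω : ℝ) ≤
      c * (L k - log ((4 * Rq q k : ℕ) : ℝ)) - κ * ph v (L k) := b1
    have hin : ω ∈ Lk (Rq q k) ⌈log (L k)⌉₊ := by
      by_contra hcon
      exact b3' hcon
    have b5 : (T (Rq q (k + 1)) ω : ℝ) ≤ T (2 * Rq q k) ω +
        X (4 * Rq q k) (Rq q (k + 1)) ω + (4 + 18 * (⌈log (L k)⌉₊ : ℝ)) := by
      exact_mod_cast h.link ω (Rq q k) ⌈log (L k)⌉₊ (Rq q (k + 1)) (Rq_pos q k)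
        (Rq_step hq4 k) hin
    have hs1 : (⌈log (L k)⌉₊ : ℝ) ≤ log (L k) + 1 :=
      (Nat.ceil_lt_add_one (log_nonneg b4')).le
    have b6 := two_lt_four (q := q) k
    have b7 : log ((2 * Rq q k : ℕ) : ℝ) ≤ L k / ((q : ℝ) / 2) := by
      rw [le_div_iff₀ (by positivity), mul_comm]
      exact scaleq hq4 k
    have b7' : exp 1 ≤ log ((2 * Rq q k : ℕ) : ℝ) := by
      refine b4.trans (log_le_log ?_ ?_)
      · exact_mod_cast Rq_pos q k
      · exact_mod_cast (show Rq q k ≤ 2 * Rq q k by omega)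
    have b8 : √((q : ℝ) / 2) * ph v (L k / ((q : ℝ) / 2)) ≤ ph v (L k) :=
      ph_div hv (by linarith) (by linarith)
    have b9 : ph v (log ((2 * Rq q k : ℕ) : ℝ)) ≤ ph v (L k / ((q : ℝ) / 2)) :=
      ph_mono hv b7' b7
    have b10 : 4 / (κ - κ0) * ph v (log ((2 * Rq q k : ℕ) : ℝ)) ≤ ph v (L k) := by
      refine le_trans ?_ b8
      exact mul_le_mul hq2 b9 (ph_nonneg _ _) (sqrt_nonneg _)
    have b11 : 2 * ph v (log ((2 * Rq q k : ℕ) : ℝ)) ≤ (κ - κ0) / 2 * ph v (L k) := by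
      have h2 : 0 < κ - κ0 := by linarith
      rw [div_mul_eq_mul_div, div_le_iff₀ h2] at b10
      nlinarith
    rw [← b6] at b1'
    have e1 : c * (L k - (log ((2 * Rq q k : ℕ) : ℝ) + log 2)) =
      c * L k - c * log ((2 * Rq q k : ℕ) : ℝ) - c * log 2 := by ring
    rw [e1] at b1'
    have e3 : 0 ≤ c * log 2 := by positivity
    show (T (Rq q (k + 1)) ω : ℝ) ≤ c * L k - κ0 * ph v (L k)
    have e2 : κ * ph v (L k) = κ0 * ph v (L k) + (κ - κ0) / 2 * ph v (L k) +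
      (κ - κ0) / 4 * ph v (L k) + (κ - κ0) / 4 * ph v (L k) := by ring
    linarith
  exact hRt.frequently hmain

end

end Q292.Lil
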