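import Pool.Agent.Q292.Lil.Conc

/-! # The law of the iterated logarithm for the nested layers -/

set_option linter.unusedSectionVars false

namespace Q292.Lil
open Real MeasureTheory Filter Topology

/-- slowly varying sequences -/
theorem determ {a : ℕ → ℝ} (h1 : ∀ κ : ℝ, 1 < κ → ∀ᶠ n in atTop, a n ≤ κ)
    (h2 : ∀ κ : ℝ, 1 < κ → ∀ᶠ n in atTop, -κ ≤ a n)
    (h3 : ∀ κ : ℝ, 0 < κ → κ < 1 → ∃ᶠ n in atTop, κ ≤ a n)
    (h4 : ∀ κ : ℝ, 0 < κ → κ < 1 → ∃ᶠ n in atTop, a n ≤ -κ)
    (h5 : ∀ ε : ℝ, 0 < ε → ∀ᶠ n in atTop, a (n + 1) ≤ a n + ε) :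
    limsup a atTop = 1 ∧ liminf a atTop = -1 ∧
      ∀ x : ℝ, MapClusterPt x atTop a ↔ x ∈ Set.Icc (-1 : ℝ) 1 := by
  have b1 : IsBoundedUnder (· ≤ ·) atTop a := isBoundedUnder_of_eventually_le (h1 2 (by norm_num))
  have b2 : IsBoundedUnder (· ≥ ·) atTop a :=
    isBoundedUnder_of_eventually_ge (h2 2 (by norm_num))
  refine ⟨?_, ?_, ?_⟩
  · apply le_antisymm
    · apply le_of_forall_pos_le_add
      intro ε hε
      exact limsup_le_of_le b2.isCoboundedUnder_le (h1 (1 + ε) (by linarith))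
    · apply le_of_forall_pos_le_add
      intro ε hε
      have k1 : 1 - min ε (1 / 2) ≤ limsup a atTop := by
        have k2 : min ε (1 / 2) ≤ 1 / 2 := min_le_right _ _
        have k3 : 0 < min ε (1 / 2) := lt_min hε (by norm_num)
        exact le_limsup_of_frequently_le (h3 _ (by linarith) (by linarith)) b1
      have k4 : min ε (1 / 2) ≤ ε := min_le_left _ _
      linarith
  · apply le_antisymm
    · apply le_of_forall_pos_le_add
      intro ε hε
      have k1 : liminf a atTop ≤ -(1 - min ε (1 / 2)) := by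
        have k2 : min ε (1 / 2) ≤ 1 / 2 := min_le_right _ _
        have k3 : 0 < min ε (1 / 2) := lt_min hε (by norm_num)
        exact liminf_le_of_frequently_le (h4 _ (by linarith) (by linarith)) b2
      have k4 : min ε (1 / 2) ≤ ε := min_le_left _ _
      linarith
    · apply le_of_forall_pos_le_add
      intro ε hε
      have := le_liminf_of_le b1.isCoboundedUnder_ge (h2 (1 + ε) (by linarith))
      linarith
  · intro x
    constructor
    · intro hx
      rw [mapClusterPt_iff_frequently] at hx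
      constructor
      · by_contra hcon
        push Not at hcon
        have k1 := hx (Set.Iio ((x + -1) / 2)) (Iio_mem_nhds (by linarith))
        have k2 := h2 (-((x + -1) / 2)) (by linarith)
        obtain ⟨n, k3, k4⟩ := (k1.and_eventually k2).exists
        simp only [Set.mem_Iio] at k3
        linarith
      · by_contra hcon
        push Not at hcon
        have k1 := hx (Set.Ioi ((x + 1) / 2)) (Ioi_mem_nhds (by linarith))
        have k2 := h1 ((x + 1) / 2) (by linarith)
        obtain ⟨n, k3, k4⟩ := (k1.and_eventually k2).exists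
        simp only [Set.mem_Ioi] at k3
        linarith
    · rintro ⟨hx1, hx2⟩
      rw [mapClusterPt_iff_frequently]
      intro s hs
      obtain ⟨ε, hε, hball⟩ := Metric.mem_nhds_iff.1 hs
      rw [frequently_atTop]
      intro N
      have hin : ∀ y : ℝ, |y - x| < ε → y ∈ s := by
        intro y hy
        apply hball
        rw [Metric.mem_ball, dist_eq]
        exact hy
      set δ : ℝ := min (ε / 3) (1 / 2) with hδ
      have hδ0 : 0 < δ := lt_min (by linarith) (by norm_num)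
      have hδ1 : δ ≤ ε / 3 := min_le_left _ _
      have hδ2 : δ ≤ 1 / 2 := min_le_right _ _
      obtain ⟨N1, hN1⟩ := eventually_atTop.1 (h5 δ hδ0)
      -- the level `y = min x (1 - δ)`
      set y : ℝ := max (min x (1 - δ)) (-1 + δ) with hy
      have hyx : |y - x| ≤ δ := by
        rw [abs_le]
        constructor
        · have : min x (1 - δ) ≤ y := le_max_left _ _
          have k2 : x - δ ≤ min x (1 - δ) := le_min (by linarith) (by linarith)
          linarith
        · have : y ≤ x + δ := max_le ((min_le_left _ _).trans (by linarith)) (by linarith)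
          linarith
      have hy1 : y ≤ 1 - δ := max_le (min_le_right _ _) (by linarith)
      have hy2 : -1 + δ ≤ y := le_max_right _ _
      have f1 : ∃ᶠ n in atTop, a n < y := by
        refine (h4 (1 - δ / 2) (by linarith) (by linarith)).mono ?_
        intro n hn
        linarith
      have f2 : ∃ᶠ n in atTop, y < a n := by
        refine (h3 (1 - δ / 2) (by linarith) (by linarith)).mono ?_
        intro n hn
        linarith
      obtain ⟨n1, hn1, hn1'⟩ := (frequently_atTop.1 f1) (max N N1)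
      obtain ⟨n2, hn2, hn2'⟩ := (frequently_atTop.1 f2) n1
      have hex : ∃ n, n1 ≤ n ∧ y < a n := ⟨n2, hn2, hn2'⟩
      classical
      set m : ℕ := Nat.find hex with hm
      have hm1 := (Nat.find_spec hex).1
      have hm2 := (Nat.find_spec hex).2
      rw [← hm] at hm1 hm2
      have hne : m ≠ n1 := by
        intro h
        rw [h] at hm2
        linarith
      obtain ⟨p, hp⟩ : ∃ p, m = p + 1 := ⟨m - 1, by omega⟩
      have hp1 : n1 ≤ p := by omega
      have hp2 : a p ≤ y := by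
        by_contra hcon
        push Not at hcon
        have := Nat.find_min' hex ⟨hp1, hcon⟩
        omega
      have hp3 := hN1 p (le_trans (le_max_right _ _) (hn1.trans hp1))
      rw [← hp] at hp3
      refine ⟨m, le_trans (le_max_left _ _) (hn1.trans hm1), hin _ ?_⟩
      have k1 := abs_le.1 hyx
      rw [abs_lt]
      constructor
      · linarith [k1.1]
      · rw [hp]
        rw [hp] at hp3
        linarith [k1.2]

section
variable {Ω : Type*} [m0 : MeasurableSpace Ω] {μ : Measure Ω} [IsProbabilityMeasure μ]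
  {T : ℕ → Ω → ℕ} {X : ℕ → ℕ → Ω → ℕ} {Lk : ℕ → ℕ → Set Ω} {F : ℕ → MeasurableSpace Ω}
  {G : ℕ → ℕ → MeasurableSpace Ω} {c v d C : ℝ}

theorem lil (h : Nst μ T X Lk F G c v d C) (hS : Sharp μ T c v)
    (hstep : ∀ ω n, T (n + 1) ω ≤ T n ω + 2) : ∀ᵐ ω ∂μ,
    limsup (fun n : ℕ => ((T n ω : ℝ) - c * log n) / ph v (log n)) atTop = 1 ∧
    liminf (fun n : ℕ => ((T n ω : ℝ) - c * log n) / ph v (log n)) atTop = -1 ∧
    ∀ x : ℝ, MapClusterPt x atTop (fun n : ℕ => ((T n ω : ℝ) - c * log n) / ph v (log n)) ↔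
      x ∈ Set.Icc (-1 : ℝ) 1 := by
  have hc := h.mom.hc
  have hv := h.mom.hv
  have hlog2 : 0 < log 2 := log_pos (by norm_num)
  have hln : Tendsto (fun n : ℕ => log (n : ℝ)) atTop atTop :=
    tendsto_log_atTop.comp tendsto_natCast_atTop_atTop
  have a1 : ∀ᵐ ω ∂μ, ∀ m : ℕ, ∀ᶠ n : ℕ in atTop,
      (T n ω : ℝ) ≤ c * log n + (1 + 1 / ((m : ℝ) + 1)) * ph v (log n) := by
    rw [ae_all_iff]
    intro m
    exact upper h (by
      have : 0 < 1 / ((m : ℝ) + 1) := by positivity
      linarith)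
  have a2 : ∀ᵐ ω ∂μ, ∀ m : ℕ, ∀ᶠ n : ℕ in atTop,
      c * log n - (1 + 1 / ((m : ℝ) + 1)) * ph v (log n) ≤ (T n ω : ℝ) := by
    rw [ae_all_iff]
    intro m
    exact lower h (by
      have : 0 < 1 / ((m : ℝ) + 1) := by positivity
      linarith)
  have hm2 : ∀ m : ℕ, 0 < 1 / ((m : ℝ) + 2) ∧ 1 / ((m : ℝ) + 2) < 1 := by
    intro m
    have hm : (0 : ℝ) ≤ m := Nat.cast_nonneg m
    constructor
    · positivity
    · rw [div_lt_one (by linarith)]
      linarith
  have a3 : ∀ᵐ ω ∂μ, ∀ m : ℕ, ∃ᶠ n : ℕ in atTop,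
      c * log n + (1 - 1 / ((m : ℝ) + 2)) * ph v (log n) ≤ (T n ω : ℝ) := by
    rw [ae_all_iff]
    intro m
    exact freqU h hS (by linarith [(hm2 m).2]) (by linarith [(hm2 m).1])
  have a4 : ∀ᵐ ω ∂μ, ∀ m : ℕ, ∃ᶠ n : ℕ in atTop,
      (T n ω : ℝ) ≤ c * log n - (1 - 1 / ((m : ℝ) + 2)) * ph v (log n) := by
    rw [ae_all_iff]
    intro m
    exact freqD h hS (by linarith [(hm2 m).2]) (by linarith [(hm2 m).1])
  have hpos : ∀ᶠ n : ℕ in atTop, 0 < ph v (log n) := by
    filter_upwards [hln.eventually (const_le_ph hv 1 1 one_pos)] with n hn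
    linarith
  have hsmall : ∀ κ : ℝ, 0 < κ → ∃ m : ℕ, 1 / ((m : ℝ) + 1) ≤ κ := by
    intro κ hκ
    obtain ⟨m, hm⟩ := exists_nat_one_div_lt hκ
    exact ⟨m, hm.le⟩
  filter_upwards [a1, a2, a3, a4] with ω w1 w2 w3 w4
  apply determ
  · intro κ hκ
    obtain ⟨m, hm⟩ := hsmall (κ - 1) (by linarith)
    filter_upwards [w1 m, hpos] with n hn hp
    rw [div_le_iff₀ hp]
    nlinarith
  · intro κ hκ
    obtain ⟨m, hm⟩ := hsmall (κ - 1) (by linarith)
    filter_upwards [w2 m, hpos] with n hn hp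
    rw [le_div_iff₀ hp]
    nlinarith
  · intro κ hκ0 hκ
    obtain ⟨m, hm⟩ := hsmall (1 - κ) (by linarith)
    refine ((w3 m).and_eventually hpos).mono ?_
    rintro n ⟨hn, hp⟩
    rw [le_div_iff₀ hp]
    have h2 : 1 / ((m : ℝ) + 2) ≤ 1 / ((m : ℝ) + 1) :=
      one_div_le_one_div_of_le (by positivity) (by linarith)
    nlinarith
  · intro κ hκ0 hκ
    obtain ⟨m, hm⟩ := hsmall (1 - κ) (by linarith)
    refine ((w4 m).and_eventually hpos).mono ?_
    rintro n ⟨hn, hp⟩
    rw [div_le_iff₀ hp]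
    have h2 : 1 / ((m : ℝ) + 2) ≤ 1 / ((m : ℝ) + 1) :=
      one_div_le_one_div_of_le (by positivity) (by linarith)
    nlinarith
  · intro ε hε
    filter_upwards [w2 0, hpos, hln.eventually (const_le_ph hv 2 (ε / 2) (by linarith)),
      hln.eventually (ph_add hv (log 2) 1 (1 + ε / 4) hlog2.le (by norm_num) (by linarith)),
      hln.eventually_ge_atTop (exp 1), eventually_ge_atTop 1] with n k1 k2 k3 k4 k5 k6
    have hn1 : (1 : ℝ) ≤ n := by exact_mod_cast k6
    have e0 : (1 : ℝ) + 1 / (((0 : ℕ) : ℝ) + 1) = 2 := by norm_num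
    rw [e0] at k1
    have hlogs : log (n : ℝ) ≤ log ((n + 1 : ℕ) : ℝ) := by
      apply log_le_log (by linarith)
      push_cast
      linarith
    have hlogs2 : log ((n + 1 : ℕ) : ℝ) ≤ log (n : ℝ) + log 2 := by
      rw [← log_mul (by linarith) (by norm_num)]
      apply log_le_log (by positivity)
      push_cast
      linarith
    have m1 : ph v (log n) ≤ ph v (log ((n + 1 : ℕ) : ℝ)) := ph_mono hv k5 hlogs
    have m2 : ph v (log ((n + 1 : ℕ) : ℝ)) ≤ (1 + ε / 4) * ph v (log n) := by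
      refine le_trans (ph_mono hv (k5.trans hlogs) hlogs2) ?_
      linarith
    have m3 : (T (n + 1) ω : ℝ) ≤ T n ω + 2 := by exact_mod_cast hstep ω n
    set P : ℝ := ph v (log (n : ℝ)) with hP
    set P' : ℝ := ph v (log ((n + 1 : ℕ) : ℝ)) with hP'
    have hP'0 : 0 < P' := lt_of_lt_of_le k2 m1
    rw [div_le_iff₀ hP'0]
    set A : ℝ := (T n ω : ℝ) - c * log n with hA
    have m4 : (T (n + 1) ω : ℝ) - c * log ((n + 1 : ℕ) : ℝ) ≤ A + 2 := by
      have := mul_le_mul_of_nonneg_left hlogs hc.le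
      rw [hA]
      linarith
    have m5 : -(2 * P) ≤ A := by rw [hA]; linarith
    have m6 : A ≤ A / P * P' + ε / 2 * P := by
      have e1 : A / P * P' - A = A / P * (P' - P) := by
        field_simp
      have e2 : -2 ≤ A / P := by
        rw [le_div_iff₀ k2]
        linarith
      have e3 : -2 * (P' - P) ≤ A / P * (P' - P) :=
        mul_le_mul_of_nonneg_right e2 (by linarith)
      have e4 : P' - P ≤ ε / 4 * P := by linarith
      linarith
    have m7 : ε * P ≤ ε * P' := mul_le_mul_of_nonneg_left m1 hε.le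
    have e5 : (A / P + ε) * P' = A / P * P' + ε * P' := by ring
    rw [e5]
    linarith

end

open Pool.Agent.H863R2.NL (changes changes_eq TT TT_le_iff D nm cN vN)
open Pool.Agent.H863R2.Nest (Ch St)

theorem abs_step (a : ℤ) : ∃ b : ℤ, Pool.Agent.H863R2.Nest.nb a b ∧ |b| = |a| + 1 := by
  rcases le_or_gt 0 a with h | h
  · refine ⟨a + 1, Or.inl rfl, ?_⟩
    rw [abs_of_nonneg h, abs_of_nonneg (by linarith)]
  · refine ⟨a - 1, Or.inr (by ring), ?_⟩
    rw [abs_of_neg h, abs_of_neg (by linarith)]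
    ring

theorem TT_step (G : Set H974.Edg) (k : ℕ) : TT G (k + 1) ≤ TT G k + 2 := by
  rw [TT_le_iff]
  obtain ⟨q, hq, hc⟩ := TT_le_iff.1 (le_refl (TT G k))
  obtain ⟨b, hb1, hb2⟩ := abs_step q.1
  obtain ⟨b', hb1', hb2'⟩ := abs_step b
  refine ⟨(b', q.2), ?_, ?_⟩
  · unfold nm at hq ⊢
    simp only
    push_cast
    rw [hb2', hb2]
    linarith
  · refine Ch.step (Ch.step hc (b := q) (c := (b, q.2)) (Or.inl ⟨rfl, hb1⟩)) (Or.inl ⟨rfl, hb1'⟩)

theorem main : ∀ᵐ ω ∂(H974.bondLaw H974.hlf),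
    limsup (fun n : ℕ => ((changes n ω : ℝ) - cN * log n) / ph vN (log n)) atTop = 1 ∧
    liminf (fun n : ℕ => ((changes n ω : ℝ) - cN * log n) / ph vN (log n)) atTop = -1 ∧
    ∀ x : ℝ, MapClusterPt x atTop
      (fun n : ℕ => ((changes n ω : ℝ) - cN * log n) / ph vN (log n)) ↔
      x ∈ Set.Icc (-1 : ℝ) 1 := by
  obtain ⟨C, hC⟩ := nst
  refine lil hC sharp_changes ?_
  intro ω n
  rw [changes_eq, changes_eq]
  exact TT_step _ n

end Q292.Lil
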