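import Pool.Agent.Q292.Lil.Cyl
import Pool.Agent.Q292.Lil.Low

/-! # Moderate deviations of the number of nested layers, lower bounds -/

namespace Q292.Lil
open Pool.Agent.H863R2.NL Pool.Agent.H863R2.NL.PowAux Pool.Agent.H450R4.NL
open Real MeasureTheory Filter Topology
open H974 hiding ET

theorem logn_tendsto : Tendsto (fun n : ℕ => log (n : ℝ)) atTop atTop :=
  tendsto_log_atTop.comp tendsto_natCast_atTop_atTop

theorem cyl_up {κ : ℝ} (h0 : 0 < κ) (h1 : κ < 1) : ∀ᶠ n : ℕ in atTop,
    2 / log (log n) ≤ EN n (fun m => ind (κ * ph vN (log n) ≤ (m : ℝ) - cN * log n)) := by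
  obtain ⟨C, hC, hup⟩ := EN_up
  obtain ⟨c, hc, hlo⟩ := EN_up_lo
  filter_upwards [logn_tendsto.eventually (mdl vN_pos cN_pos.le hc hC h0 h1),
    eventually_ge_atTop 1] with n hn hn1
  refine hn (EN n) (fun m => (m : ℝ) - cN * log n) (lin_EN n) ?_
  intro u hu0 hu1
  have e : (fun m : ℕ => exp (u * ((m : ℝ) - cN * log n))) =
      fun m : ℕ => exp (-(u * cN * log n)) * exp u ^ m := by
    funext m
    rw [← exp_nat_mul, ← exp_add]
    congr 1
    ring
  rw [e, EN_mul]
  have k1 := hlo u hu0 hu1 n hn1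
  have k2 := hup u hu0 hu1 n hn1
  constructor
  · refine le_trans (le_of_eq ?_) (mul_le_mul_of_nonneg_left k1 (exp_pos _).le)
    rw [mul_left_comm, ← exp_add]
    congr 2
    ring
  · refine le_trans (mul_le_mul_of_nonneg_left k2 (exp_pos _).le) (le_of_eq ?_)
    rw [mul_left_comm, ← exp_add]
    congr 2
    ring

theorem cyl_dn {κ : ℝ} (h0 : 0 < κ) (h1 : κ < 1) : ∀ᶠ n : ℕ in atTop,
    2 / log (log n) ≤ EN n (fun m => ind (κ * ph vN (log n) ≤ cN * log n - (m : ℝ))) := by
  obtain ⟨C, hC, hup⟩ := EN_dn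
  obtain ⟨c, hc, hlo⟩ := EN_dn_lo
  filter_upwards [logn_tendsto.eventually (mdl vN_pos cN_pos.le hc hC h0 h1),
    eventually_ge_atTop 1] with n hn hn1
  refine hn (EN n) (fun m => cN * log n - (m : ℝ)) (lin_EN n) ?_
  intro u hu0 hu1
  have e : (fun m : ℕ => exp (u * (cN * log n - (m : ℝ)))) =
      fun m : ℕ => exp (u * cN * log n) * exp (-u) ^ m := by
    funext m
    rw [← exp_nat_mul, ← exp_add]
    congr 1
    ring
  rw [e, EN_mul]
  have k1 := hlo u hu0 hu1 n hn1
  have k2 := hup u hu0 hu1 n hn1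
  constructor
  · refine le_trans (le_of_eq ?_) (mul_le_mul_of_nonneg_left k1 (exp_pos _).le)
    rw [mul_left_comm, ← exp_add]
    congr 2
    ring
  · refine le_trans (mul_le_mul_of_nonneg_left k2 (exp_pos _).le) (le_of_eq ?_)
    rw [mul_left_comm, ← exp_add]
    congr 2
    ring

theorem ET_ind_le_one (r : ℕ) (P : ℕ → Prop) : ET r (fun m => ind (P m)) ≤ 1 := by
  have := ET_le_ET (k := r) (g := fun m => ind (P m)) (g' := fun _ => 1)
    (fun m => ind_le_one _)
  rwa [ET_const] at this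

theorem ET_not (r : ℕ) (P : ℕ → Prop) : ET r (fun m => ind (P m)) +
    ET r (fun m => ind (¬ P m)) = 1 := by
  rw [← ET_add]
  have : (fun m => ind (P m) + ind (¬ P m)) = fun _ => (1 : ℝ) := by
    funext m
    rw [ind_not]
    ring
  rw [this, ET_const]

theorem EN_not (r : ℕ) (P : ℕ → Prop) : EN r (fun m => ind (P m)) +
    EN r (fun m => ind (¬ P m)) = 1 := by
  rw [← EN_add]
  have : (fun m => ind (P m) + ind (¬ P m)) = fun _ => (1 : ℝ) := by
    funext m
    rw [ind_not]
    ring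
  rw [this, EN_const]

theorem sharp_dn {κ : ℝ} (h0 : 0 < κ) (h1 : κ < 1) : ∀ᶠ n : ℕ in atTop, 1 / log (log n) ≤
    (bondLaw hlf).real {ω | (changes n ω : ℝ) ≤ cN * log n - κ * ph vN (log n)} := by
  have hc := cN_pos
  set κ' : ℝ := (1 + κ) / 2 with hκ'
  have hm : Tendsto (fun n : ℕ => 2 * n + 1) atTop atTop :=
    tendsto_atTop_mono (f := fun n : ℕ => n) (fun n => by omega) tendsto_id
  filter_upwards [hm.eventually (cyl_dn (κ := κ') (by linarith) (by linarith)),
    eventually_ge_atTop 1, logn_tendsto.eventually (const_le_ph vN_pos (2 * cN) (κ' - κ)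
      (by linarith)), logn_tendsto.eventually_ge_atTop (exp 1 + 2)] with n hn hn1 hn2 hn3
  have hn0 : (1 : ℝ) ≤ n := by exact_mod_cast hn1
  set L : ℝ := log (n : ℝ) with hL
  set L' : ℝ := log ((2 * n + 1 : ℕ) : ℝ) with hL'
  have hLL : L ≤ L' := by
    apply log_le_log (by linarith)
    push_cast
    linarith
  have hLL2 : L' ≤ L + 2 := by
    have h3 : log ((2 * n + 1 : ℕ) : ℝ) ≤ log (3 * (n : ℝ)) := by
      apply log_le_log
      · positivity
      · push_cast; linarith
    rw [log_mul (by norm_num) (by linarith)] at h3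
    have h4 : log 3 ≤ 2 := by
      have := log_le_sub_one_of_pos (x := (3 : ℝ)) (by norm_num)
      linarith
    linarith
  have he := exp_pos 1
  have he2 : (2 : ℝ) ≤ exp 1 := by linarith [add_one_le_exp (1 : ℝ)]
  have hlog : 1 ≤ log L := by
    rw [← log_exp 1]
    exact log_le_log he (by linarith)
  have hlog2 : log L' ≤ 2 * log L := by
    have : log L' ≤ log (L ^ 2) := log_le_log (by linarith) (by nlinarith)
    rw [log_pow] at this
    push_cast at this
    exact this
  have hph : ph vN L ≤ ph vN L' := ph_mono vN_pos (by linarith) hLL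
  rw [prob_changes n (fun m => (m : ℝ) ≤ cN * L - κ * ph vN L)]
  have hanti : Antitone (fun m : ℕ => ind ((m : ℝ) ≤ cN * L - κ * ph vN L)) := by
    intro a b hab
    apply ind_mono
    intro h
    have : (a : ℝ) ≤ b := by exact_mod_cast hab
    linarith
  refine le_trans ?_ (EN_le (n := 2 * n + 1) (by omega) hanti)
  refine le_trans ?_ (EN_mono (fun m => ind_mono ?_)) (b := EN (2 * n + 1)
    (fun m => ind (κ' * ph vN L' ≤ cN * L' - (m : ℝ))))
  · refine le_trans ?_ hn
    rw [div_le_div_iff₀ (by linarith) (by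
      have : 1 ≤ log L' := hlog.trans (log_le_log (by linarith) hLL)
      linarith)]
    linarith
  · intro h
    have h5 : κ' * ph vN L ≤ κ' * ph vN L' := mul_le_mul_of_nonneg_left hph (by linarith)
    have h6 : cN * L' ≤ cN * (L + 2) := mul_le_mul_of_nonneg_left hLL2 hc.le
    nlinarith

theorem sharp_up {κ : ℝ} (h0 : 0 < κ) (h1 : κ < 1) : ∀ᶠ n : ℕ in atTop, 1 / log (log n) ≤
    (bondLaw hlf).real {ω | cN * log n + κ * ph vN (log n) ≤ (changes n ω : ℝ)} := by
  have hc := cN_pos
  set κ' : ℝ := (1 + κ) / 2 with hκ'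
  set q : ℝ := 1 - (1 / 2 : ℝ) ^ 47 with hq
  have hq0 : 0 < q := by rw [hq]; norm_num
  have hq1 : q < 1 := by rw [hq]; norm_num
  have hlq : 0 < -log q := by
    have := log_neg hq0 hq1
    linarith
  set A : ℝ := 1 / (-log q) with hA
  have hA0 : 0 < A := by positivity
  have hm : Tendsto (fun n : ℕ => 10 * (n / 4)) atTop atTop := by
    apply tendsto_atTop.2
    intro b
    filter_upwards [eventually_ge_atTop (4 * b)] with n hn
    omega
  have hlo : ∀ᶠ L : ℝ in atTop, 12 * log L ≤ L := by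
    have h2 := (isLittleO_log_id_atTop).def (c := 1 / 12) (by norm_num)
    filter_upwards [h2, eventually_ge_atTop 1] with L h3 h4
    simp only [id] at h3
    rw [norm_of_nonneg (log_nonneg h4), norm_of_nonneg (by linarith)] at h3
    linarith
  filter_upwards [hm.eventually (cyl_up (κ := κ') (by linarith) (by linarith)),
    eventually_ge_atTop 8, logn_tendsto.eventually (const_le_ph vN_pos 11 ((κ' - κ) / 2)
      (by linarith)), logn_tendsto.eventually (log_le_ph vN_pos (10 * A) ((κ' - κ) / 2)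
      (by linarith)), logn_tendsto.eventually_ge_atTop (exp (exp 1 + 3 * log 2)),
      logn_tendsto.eventually hlo] with n hn hn1 hn2 hn2' hn3 hn4
  obtain ⟨a, ha⟩ : ∃ a : ℕ, a = n / 4 := ⟨_, rfl⟩
  rw [← ha] at hn
  have ha1 : 1 ≤ a := by omega
  have ha2 : 4 * a ≤ n := by omega
  have ha3 : n ≤ 10 * a := by omega
  have hn0 : (8 : ℝ) ≤ n := by exact_mod_cast hn1
  have hln2 : 0 < log 2 := log_pos (by norm_num)
  have he := exp_pos 1
  set L : ℝ := log (n : ℝ) with hL
  set L' : ℝ := log ((10 * a : ℕ) : ℝ) with hL'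
  have hx : exp 1 + 3 * log 2 ≤ log L := by
    rw [← log_exp (exp 1 + 3 * log 2)]
    exact log_le_log (exp_pos _) hn3
  have hLe : exp 1 ≤ L := by
    have h2 : exp 1 ≤ exp (exp 1 + 3 * log 2) := by
      apply exp_le_exp.2
      linarith [add_one_le_exp (1 : ℝ)]
    linarith
  have he2 : (2 : ℝ) ≤ exp 1 := by linarith [add_one_le_exp (1 : ℝ)]
  have hLL : L ≤ L' := by
    apply log_le_log (by linarith)
    exact_mod_cast ha3
  have hLL2 : L' ≤ L + 1 := by
    have h3 : log ((10 * a : ℕ) : ℝ) ≤ log (5 / 2 * (n : ℝ)) := by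
      apply log_le_log
      · exact_mod_cast (show 0 < 10 * a by omega)
      · have : (4 : ℝ) * a ≤ n := by exact_mod_cast ha2
        push_cast
        linarith
    rw [log_mul (by norm_num) (by linarith)] at h3
    have h4 : log (5 / 2) ≤ 1 := by
      rw [log_le_iff_le_exp (by norm_num)]
      have := exp_one_gt_d9
      linarith
    linarith
  have hlogL0 : 0 < log L := by linarith
  have hlogL : log L' ≤ 4 / 3 * log L := by
    have h2 : log L' ≤ log (2 * L) := log_le_log (by linarith) (by linarith)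
    rw [log_mul (by norm_num) (by linarith)] at h2
    linarith
  have hlogL'0 : 0 < log L' := by
    have := log_le_log (by linarith) hLL
    linarith
  have hph : ph vN L ≤ ph vN L' := ph_mono vN_pos hLe hLL
  -- the number of bad rectangles
  set k : ℕ := ⌈A * log L⌉₊ with hk
  have hk1 : (k : ℝ) ≤ A * log L + 1 := (Nat.ceil_lt_add_one (by positivity)).le
  have hk2 : A * log L ≤ k := Nat.le_ceil _
  have hqk : q ^ (k + 1) ≤ 1 / L := by
    have e : q ^ (k + 1) = exp ((k + 1 : ℕ) * log q) := by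
      rw [exp_nat_mul, exp_log hq0]
    rw [e]
    have e2 : 1 / L = exp (-log L) := by
      rw [exp_neg, exp_log (by linarith), one_div]
    rw [e2]
    apply exp_le_exp.2
    push_cast
    have e3 : A * log L * (-log q) = log L := by
      rw [hA]
      have hq' : -log q ≠ 0 := hlq.ne'
      calc 1 / -log q * log L * -log q = log L * (-log q / -log q) := by ring
        _ = log L := by rw [div_self hq', mul_one]
    nlinarith
  set K' : ℝ := cN * L' + κ' * ph vN L' with hK'
  have hanti : Antitone (fun m : ℕ => ind (¬ (K' ≤ (m : ℝ)))) := by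
    intro a b hab
    apply ind_mono
    intro h
    push Not at h ⊢
    have : (a : ℝ) ≤ b := by exact_mod_cast hab
    linarith
  have i1 := EN_ge (a := a) k (by omega) hanti (fun m => ind_nonneg _)
  have hanti2 : Antitone (fun m : ℕ => ind (¬ (K' ≤ ((m + 1 + 10 * k : ℕ) : ℝ)))) :=
    fun a b hab => hanti (by omega : a + 1 + 10 * k ≤ b + 1 + 10 * k)
  have i2 : ET n (fun m : ℕ => ind (¬ (K' ≤ ((m + 1 + 10 * k : ℕ) : ℝ)))) ≤
      ET (4 * a) (fun m : ℕ => ind (¬ (K' ≤ ((m + 1 + 10 * k : ℕ) : ℝ)))) := ET_anti ha2 hanti2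
  have i3 := ET_ind_le_one (2 * a - 1) (fun m : ℕ => ¬ (K' ≤ ((m + 1 + 10 * k : ℕ) : ℝ)))
  have i4 := EN_not (10 * a) (fun m : ℕ => K' ≤ (m : ℝ))
  have i5 := ET_not n (fun m : ℕ => K' ≤ ((m + 1 + 10 * k : ℕ) : ℝ))
  have i6 : 2 / log L' ≤ EN (10 * a) (fun m : ℕ => ind (K' ≤ (m : ℝ))) := by
    refine hn.trans (EN_mono (fun m => ind_mono ?_))
    intro h
    rw [hK']
    linarith
  have i7 : 6 * q ^ (k + 1) * ET (2 * a - 1)
      (fun m : ℕ => ind (¬ (K' ≤ ((m + 1 + 10 * k : ℕ) : ℝ)))) ≤ 6 * (1 / L) := by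
    have h2 : 0 ≤ 6 * q ^ (k + 1) := by positivity
    have h3 := mul_le_mul_of_nonneg_left i3 h2
    have h4 : 6 * q ^ (k + 1) * 1 ≤ 6 * (1 / L) := by
      rw [mul_one]
      exact mul_le_mul_of_nonneg_left hqk (by norm_num)
    exact h3.trans h4
  have i8 : 2 / log L' - 6 * (1 / L) ≤
      ET n (fun m : ℕ => ind (K' ≤ ((m + 1 + 10 * k : ℕ) : ℝ))) := by
    linarith
  rw [prob_changes n (fun m => cN * L + κ * ph vN L ≤ (m : ℝ))]
  have i9 : ET n (fun m : ℕ => ind (K' ≤ ((m + 1 + 10 * k : ℕ) : ℝ))) ≤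
      ET n (fun m => ind (cN * L + κ * ph vN L ≤ (m : ℝ))) := by
    apply ET_le_ET
    intro m
    apply ind_mono
    intro h
    push_cast at h
    have h5 : κ' * ph vN L ≤ κ' * ph vN L' := mul_le_mul_of_nonneg_left hph (by linarith)
    have h6 : cN * L ≤ cN * L' := mul_le_mul_of_nonneg_left hLL hc.le
    have h7 : κ' * ph vN L = κ * ph vN L + (κ' - κ) / 2 * ph vN L + (κ' - κ) / 2 * ph vN L := by
      ring
    linarith
  refine le_trans ?_ (i8.trans i9)
  have j1 : 3 / 2 * (1 / log L) ≤ 2 / log L' := by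
    rw [mul_one_div, div_le_div_iff₀ hlogL0 hlogL'0]
    linarith
  have j2 : 6 * (1 / L) ≤ 1 / 2 * (1 / log L) := by
    rw [mul_one_div, mul_one_div, div_le_div_iff₀ (by linarith) hlogL0]
    linarith
  linarith

theorem sharp_changes : Sharp (bondLaw hlf) changes cN vN where
  up := fun _ h0 h1 => sharp_up h0 h1
  dn := fun _ h0 h1 => sharp_dn h0 h1

/-- exponential moments of the number of layers -/
theorem mom_changes : ∃ C : ℝ, 0 < C ∧ Mom (bondLaw hlf) changes cN vN cN C := by
  obtain ⟨C1, hC1, h1⟩ := mom_up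
  obtain ⟨C2, hC2, h2⟩ := mom_dn
  refine ⟨max C1 C2, lt_max_of_lt_left hC1, ?_⟩
  have e1 : ∀ (n : ℕ) (s : ℝ), ∫ ω, exp (s * (changes n ω : ℝ)) ∂(bondLaw hlf) =
      ET n (fun m => exp s ^ m) := by
    intro n s
    have h := int_changes n (fun m => exp (s * (m : ℝ)))
    rw [h]
    congr 1
    funext m
    rw [← exp_nat_mul, mul_comm]
  exact {
    meas := meas_changes
    le := fun n ω => by
      rw [changes_eq]
      exact TT_le_two _ n
    mono := fun ω a b hab => changes_mono hab ω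
    hc := cN_pos
    hv := vN_pos
    hd := cN_pos.le
    hC := lt_max_of_lt_left hC1
    up := fun l hl0 hl1 n hn => by
      rw [e1]
      exact (h1 l hl0 hl1 n hn).trans (mul_le_mul_of_nonneg_right (le_max_left _ _) (exp_pos _).le)
    dn := fun l hl0 hl1 n hn => by
      rw [e1]
      exact (h2 l hl0 hl1 n hn).trans (mul_le_mul_of_nonneg_right (le_max_right _ _) (exp_pos _).le) }

end Q292.Lil
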