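import Pool.Agent.Q292.Lil.Core

/-! # A maximal inequality -/

set_option linter.unusedSectionVars false

namespace Q292.Lil
open Real Filter Topology MeasureTheory
open Pool.Agent.H450R4.NL (cheb meas_ge meas_le)

/-- nested layers: `T n` is the number of layers up to the distance `n`, `X r R` the number of
layers between the distances `r` and `R` -/
structure Nst {Ω : Type*} [m0 : MeasurableSpace Ω] (μ : Measure Ω) (T : ℕ → Ω → ℕ)
    (X : ℕ → ℕ → Ω → ℕ) (Lk : ℕ → ℕ → Set Ω) (F : ℕ → MeasurableSpace Ω)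
    (G : ℕ → ℕ → MeasurableSpace Ω) (c v d C : ℝ) : Prop where
  mom : Mom μ T c v d C
  Fle : ∀ n, F n ≤ m0
  Gle : ∀ r R, G r R ≤ m0
  Fmono : Monotone F
  GF : ∀ r R, G r R ≤ F R
  Tm : ∀ n, Measurable[F n] (T n)
  Xm : ∀ r R, Measurable[G r R] (X r R)
  ind : ∀ n r R : ℕ, n < r → r ≤ R → ∀ A B : Set Ω, MeasurableSet[F n] A →
    MeasurableSet[G r R] B → μ.real (A ∩ B) = μ.real A * μ.real B
  sup : ∀ (ω : Ω) (n r R : ℕ), n < r → r ≤ R → T n ω + X r R ω ≤ T R ω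
  Lkm : ∀ b k, MeasurableSet (Lk b k)
  link : ∀ (ω : Ω) (b k R : ℕ), 1 ≤ b → 8 * b ≤ R → ω ∈ Lk b k →
    T R ω ≤ T (2 * b) ω + X (4 * b) R ω + (4 + 18 * k)
  Lkp : ∀ b k : ℕ, 1 ≤ b → μ.real (Lk b k)ᶜ ≤ C * exp (-2 * k)

theorem small (C D : ℝ) (hC : 0 < C) : ∃ K : ℝ, 0 < K ∧ C * exp (-K + D) ≤ 1 / 6 := by
  refine ⟨max 1 (log (6 * C) + D), lt_max_of_lt_left one_pos, ?_⟩
  have h1 : -(max 1 (log (6 * C) + D)) + D ≤ -log (6 * C) := by
    have := le_max_right 1 (log (6 * C) + D)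
    linarith
  calc C * exp (-(max 1 (log (6 * C) + D)) + D) ≤ C * exp (-log (6 * C)) :=
        mul_le_mul_of_nonneg_left (exp_le_exp.2 h1) hC.le
    _ = 1 / 6 := by
        rw [exp_neg, exp_log (by linarith)]
        field_simp

section
variable {Ω : Type*} [m0 : MeasurableSpace Ω] {μ : Measure Ω} [IsProbabilityMeasure μ]
  {T : ℕ → Ω → ℕ} {X : ℕ → ℕ → Ω → ℕ} {Lk : ℕ → ℕ → Set Ω} {F : ℕ → MeasurableSpace Ω}
  {G : ℕ → ℕ → MeasurableSpace Ω} {c v d C : ℝ}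

theorem Xmeas (h : Nst μ T X Lk F G c v d C) (r R : ℕ) : Measurable (X r R) :=
  (h.Xm r R).mono (h.Gle r R) le_rfl

theorem half_of {P : Set Ω} (hP : MeasurableSet P) (h : μ.real Pᶜ ≤ 1 / 2) : 1 / 2 ≤ μ.real P := by
  have := probReal_compl_eq_one_sub (μ := μ) hP
  linarith

/-- the increments are not too small -/
theorem incU (h : Nst μ T X Lk F G c v d C) : ∃ K : ℝ, 0 < K ∧ ∀ᶠ L : ℝ in atTop, ∀ b m : ℕ,
    1 ≤ b → 8 * b ≤ m → log m ≤ L →
    1 / 2 ≤ μ.real {ω | c * (log m - log ((4 * b : ℕ) : ℝ)) - K * √L ≤ (X (4 * b) m ω : ℝ)} := by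
  have hc := h.mom.hc
  obtain ⟨K0, hK0, hK⟩ := small C (v + d) h.mom.hC
  obtain ⟨k1, hk1, hk⟩ := small C 0 h.mom.hC
  obtain ⟨k, hkk⟩ := exists_nat_ge k1
  have hk2 : C * exp (-2 * (k : ℝ)) ≤ 1 / 6 := by
    refine le_trans (mul_le_mul_of_nonneg_left (exp_le_exp.2 ?_) h.mom.hC.le) hk
    linarith
  refine ⟨3 * K0, by linarith, ?_⟩
  filter_upwards [tendsto_sqrt_atTop.eventually_ge_atTop ((4 + 18 * k) / K0),
    eventually_ge_atTop 4] with L h1 h2
  intro b m hb hm hmL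
  rw [div_le_iff₀ hK0] at h1
  have hm1 : 1 ≤ m := by omega
  have hb1 : (1 : ℝ) ≤ b := by exact_mod_cast hb
  have hmeas : MeasurableSet {ω | c * (log m - log ((4 * b : ℕ) : ℝ)) - 3 * K0 * √L ≤
      (X (4 * b) m ω : ℝ)} := meas_ge (Xmeas h _ _) _
  apply half_of hmeas
  have hlog2b : log ((2 * b : ℕ) : ℝ) ≤ log ((4 * b : ℕ) : ℝ) := by
    apply log_le_log
    · push_cast; linarith
    · push_cast; linarith
  have hlogL : log ((2 * b : ℕ) : ℝ) ≤ L := by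
    refine le_trans (log_le_log ?_ ?_) hmL
    · push_cast; linarith
    · exact_mod_cast (show 2 * b ≤ m by omega)
  have s1 := (sqU (μ := μ) h.mom (K := K0) h2 hm1 hmL).2
  have s2 := (sqU (μ := μ) h.mom (K := K0) h2 (n := 2 * b) (by omega) hlogL).1
  have s3 := h.Lkp b k hb
  have hsub : {ω | c * (log m - log ((4 * b : ℕ) : ℝ)) - 3 * K0 * √L ≤ (X (4 * b) m ω : ℝ)}ᶜ ⊆
      ({ω | (T m ω : ℝ) ≤ c * log m - K0 * √L} ∪
        {ω | c * log ((2 * b : ℕ) : ℝ) + K0 * √L ≤ (T (2 * b) ω : ℝ)}) ∪ (Lk b k)ᶜ := by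
    intro ω hω
    by_contra hcon
    simp only [Set.mem_union, Set.mem_compl_iff, Set.mem_ofPred_eq, not_or, not_le, not_not] at hω hcon
    obtain ⟨⟨a1, a2⟩, a3⟩ := hcon
    have a4 : (T m ω : ℝ) ≤ T (2 * b) ω + X (4 * b) m ω + (4 + 18 * k) := by
      exact_mod_cast h.link ω b k m hb hm a3
    have a5 : c * log ((2 * b : ℕ) : ℝ) ≤ c * log ((4 * b : ℕ) : ℝ) :=
      mul_le_mul_of_nonneg_left hlog2b hc.le
    rw [mul_sub] at hω
    linarith
  calc μ.real {ω | c * (log m - log ((4 * b : ℕ) : ℝ)) - 3 * K0 * √L ≤ (X (4 * b) m ω : ℝ)}ᶜ ≤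
      μ.real (({ω | (T m ω : ℝ) ≤ c * log m - K0 * √L} ∪
        {ω | c * log ((2 * b : ℕ) : ℝ) + K0 * √L ≤ (T (2 * b) ω : ℝ)}) ∪ (Lk b k)ᶜ) :=
        measureReal_mono hsub (measure_ne_top _ _)
    _ ≤ μ.real ({ω | (T m ω : ℝ) ≤ c * log m - K0 * √L} ∪
        {ω | c * log ((2 * b : ℕ) : ℝ) + K0 * √L ≤ (T (2 * b) ω : ℝ)}) + μ.real (Lk b k)ᶜ :=
        measureReal_union_le _ _
    _ ≤ (μ.real {ω | (T m ω : ℝ) ≤ c * log m - K0 * √L} +
        μ.real {ω | c * log ((2 * b : ℕ) : ℝ) + K0 * √L ≤ (T (2 * b) ω : ℝ)}) +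
        μ.real (Lk b k)ᶜ := by
        gcongr
        exact measureReal_union_le _ _
    _ ≤ 1 / 2 := by linarith

/-- the increments are not too large -/
theorem incD (h : Nst μ T X Lk F G c v d C) : ∃ K : ℝ, 0 < K ∧ ∀ᶠ L : ℝ in atTop, ∀ b m : ℕ,
    1 ≤ b → 8 * b ≤ m → log m ≤ L →
    1 / 2 ≤ μ.real {ω | (X (4 * b) m ω : ℝ) ≤ c * (log m - log ((4 * b : ℕ) : ℝ)) + K * √L} := by
  have hc := h.mom.hc
  obtain ⟨K0, hK0, hK⟩ := small C (v + d) h.mom.hC
  refine ⟨3 * K0, by linarith, ?_⟩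
  filter_upwards [tendsto_sqrt_atTop.eventually_ge_atTop ((c * log 2) / K0),
    eventually_ge_atTop 4] with L h1 h2
  intro b m hb hm hmL
  rw [div_le_iff₀ hK0] at h1
  have hm1 : 1 ≤ m := by omega
  have hb1 : (1 : ℝ) ≤ b := by exact_mod_cast hb
  have hmeas : MeasurableSet {ω | (X (4 * b) m ω : ℝ) ≤
      c * (log m - log ((4 * b : ℕ) : ℝ)) + 3 * K0 * √L} := meas_le (Xmeas h _ _) _
  apply half_of hmeas
  have hlog2b : log ((4 * b : ℕ) : ℝ) = log ((2 * b : ℕ) : ℝ) + log 2 := by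
    rw [← log_mul (by positivity) (by norm_num)]
    congr 1
    push_cast
    ring
  have hlogL : log ((2 * b : ℕ) : ℝ) ≤ L := by
    refine le_trans (log_le_log ?_ ?_) hmL
    · push_cast; linarith
    · exact_mod_cast (show 2 * b ≤ m by omega)
  have s1 := (sqU (μ := μ) h.mom (K := K0) h2 hm1 hmL).1
  have s2 := (sqU (μ := μ) h.mom (K := K0) h2 (n := 2 * b) (by omega) hlogL).2
  have hsub : {ω | (X (4 * b) m ω : ℝ) ≤ c * (log m - log ((4 * b : ℕ) : ℝ)) + 3 * K0 * √L}ᶜ ⊆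
      ({ω | c * log m + K0 * √L ≤ (T m ω : ℝ)} ∪
        {ω | (T (2 * b) ω : ℝ) ≤ c * log ((2 * b : ℕ) : ℝ) - K0 * √L}) := by
    intro ω hω
    by_contra hcon
    simp only [Set.mem_union, Set.mem_compl_iff, Set.mem_ofPred_eq, not_or, not_le] at hω hcon
    obtain ⟨a1, a2⟩ := hcon
    have a4 : (T (2 * b) ω : ℝ) + X (4 * b) m ω ≤ T m ω := by
      exact_mod_cast h.sup ω (2 * b) (4 * b) m (by omega) (by omega)
    rw [hlog2b] at hω
    have e : c * (log m - (log ((2 * b : ℕ) : ℝ) + log 2)) =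
      c * log m - c * log ((2 * b : ℕ) : ℝ) - c * log 2 := by ring
    linarith
  have hC := h.mom.hC
  calc μ.real {ω | (X (4 * b) m ω : ℝ) ≤ c * (log m - log ((4 * b : ℕ) : ℝ)) + 3 * K0 * √L}ᶜ ≤
      μ.real ({ω | c * log m + K0 * √L ≤ (T m ω : ℝ)} ∪
        {ω | (T (2 * b) ω : ℝ) ≤ c * log ((2 * b : ℕ) : ℝ) - K0 * √L}) :=
        measureReal_mono hsub (measure_ne_top _ _)
    _ ≤ μ.real {ω | c * log m + K0 * √L ≤ (T m ω : ℝ)} +
        μ.real {ω | (T (2 * b) ω : ℝ) ≤ c * log ((2 * b : ℕ) : ℝ) - K0 * √L} :=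
        measureReal_union_le _ _
    _ ≤ 1 / 2 := by linarith

/-- Ottaviani's inequality -/
theorem ott {A H : ℕ → Set Ω} {B : Set Ω} (J : ℕ) (hA : ∀ j, MeasurableSet (A j))
    (hB : MeasurableSet B)
    (h : ∀ j < J, 1 / 2 * μ.real (A j \ {ω | ∃ i < j, ω ∈ A i}) ≤
      μ.real ((A j \ {ω | ∃ i < j, ω ∈ A i}) ∩ H j))
    (hs : ∀ j < J, A j ∩ H j ⊆ B) : μ.real {ω | ∃ i < J, ω ∈ A i} ≤ 2 * μ.real B := by
  have hU : ∀ j, MeasurableSet {ω | ∃ i < j, ω ∈ A i} := by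
    intro j
    have : {ω | ∃ i < j, ω ∈ A i} = ⋃ i ∈ Finset.range j, A i := by
      ext ω
      simp
    rw [this]
    exact Finset.measurableSet_biUnion _ (fun i _ => hA i)
  have key : ∀ j ≤ J, 1 / 2 * μ.real {ω | ∃ i < j, ω ∈ A i} ≤
      μ.real ({ω | ∃ i < j, ω ∈ A i} ∩ B) := by
    intro j
    induction j with
    | zero =>
      intro _
      have : {ω | ∃ i < 0, ω ∈ A i} = (∅ : Set Ω) := by
        ext ω
        simp
      rw [this]
      simp
    | succ j ih =>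
      intro hj
      set U : Set Ω := {ω | ∃ i < j, ω ∈ A i} with hUd
      set V : Set Ω := A j \ U with hV
      have e1 : {ω | ∃ i < j + 1, ω ∈ A i} = U ∪ V := by
        ext ω
        simp only [Set.mem_union, Set.mem_ofPred_eq, hUd, hV, Set.mem_sdiff]
        constructor
        · rintro ⟨i, hi, hω⟩
          by_cases hx : ∃ i < j, ω ∈ A i
          · exact Or.inl hx
          · rcases Nat.lt_or_ge i j with h1 | h1
            · exact absurd ⟨i, h1, hω⟩ hx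
            · have : i = j := by omega
              subst this
              exact Or.inr ⟨hω, hx⟩
        · rintro (⟨i, hi, hω⟩ | ⟨hω, _⟩)
          · exact ⟨i, by omega, hω⟩
          · exact ⟨j, by omega, hω⟩
      have hVm : MeasurableSet V := (hA j).diff (hU j)
      have hd : Disjoint U V := Set.disjoint_sdiff_right
      have e2 : μ.real (U ∪ V) = μ.real U + μ.real V := measureReal_union hd hVm
      have e3 : μ.real ((U ∪ V) ∩ B) = μ.real (U ∩ B) + μ.real (V ∩ B) := by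
        rw [Set.union_inter_distrib_right]
        exact measureReal_union (hd.mono Set.inter_subset_left Set.inter_subset_left)
          (hVm.inter hB)
      rw [e1, e2, e3]
      have i1 := ih (by omega)
      have i2 := h j (by omega)
      have i3 : μ.real (V ∩ H j) ≤ μ.real (V ∩ B) := by
        apply measureReal_mono _ (measure_ne_top _ _)
        intro ω hω
        exact ⟨hω.1, hs j (by omega) ⟨hω.1.1, hω.2⟩⟩
      linarith
  have h1 := key J le_rfl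
  have h2 : μ.real ({ω | ∃ i < J, ω ∈ A i} ∩ B) ≤ μ.real B :=
    measureReal_mono Set.inter_subset_right (measure_ne_top _ _)
  linarith

theorem first_meas (h : Nst μ T X Lk F G c v d C) {A : ℕ → Set Ω} {s : ℕ → ℕ} (hs : Monotone s)
    (hA : ∀ j, MeasurableSet[F (s j)] (A j)) (j : ℕ) :
    MeasurableSet[F (s j)] (A j \ {ω | ∃ i < j, ω ∈ A i}) := by
  apply (hA j).diff
  have : {ω | ∃ i < j, ω ∈ A i} = ⋃ i ∈ Finset.range j, A i := by
    ext ω
    simp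
  rw [this]
  apply Finset.measurableSet_biUnion
  intro i hi
  exact h.Fmono (hs (Finset.mem_range.1 hi).le) _ (hA i)

theorem two_pow_mono : Monotone (fun j : ℕ => 2 ^ j) :=
  fun _ _ hab => Nat.pow_le_pow_right (by norm_num) hab

theorem measT (h : Nst μ T X Lk F G c v d C) (n : ℕ) (S : Set ℕ) :
    MeasurableSet[F n] {ω | T n ω ∈ S} := h.Tm n (MeasurableSet.of_discrete (s := S))

theorem measX (h : Nst μ T X Lk F G c v d C) (r R : ℕ) (S : Set ℕ) :
    MeasurableSet[G r R] {ω | X r R ω ∈ S} := h.Xm r R (MeasurableSet.of_discrete (s := S))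

/-- maximal inequality, upper deviations -/
theorem maxU (h : Nst μ T X Lk F G c v d C) : ∃ K : ℝ, 0 < K ∧ ∀ᶠ J : ℕ in atTop, ∀ x : ℝ,
    μ.real {ω | ∃ j < J, ω ∈ {ω | c * log ((2 ^ j : ℕ) : ℝ) + x ≤ (T (2 ^ j) ω : ℝ)}} ≤
      2 * μ.real {ω | c * log ((2 ^ (J + 2) : ℕ) : ℝ) +
        (x - K * √(log ((2 ^ (J + 2) : ℕ) : ℝ))) ≤ (T (2 ^ (J + 2)) ω : ℝ)} := by
  obtain ⟨K, hK, hE⟩ := incU h
  have hc := h.mom.hc
  refine ⟨K + c * log 4, by positivity, ?_⟩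
  have hlim : Tendsto (fun J : ℕ => log ((2 ^ (J + 2) : ℕ) : ℝ)) atTop atTop := by
    refine tendsto_log_atTop.comp (tendsto_natCast_atTop_atTop.comp ?_)
    exact (tendsto_pow_atTop_atTop_of_one_lt (by norm_num : (1 : ℕ) < 2)).comp
      (tendsto_add_atTop_nat 2)
  filter_upwards [hlim.eventually hE, hlim.eventually_ge_atTop 1] with J h1 h2
  intro x
  set m : ℕ := 2 ^ (J + 2) with hm
  set L : ℝ := log (m : ℝ) with hL
  apply ott (A := fun j => {ω | c * log ((2 ^ j : ℕ) : ℝ) + x ≤ (T (2 ^ j) ω : ℝ)})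
    (H := fun j => {ω | c * (L - log ((4 * 2 ^ j : ℕ) : ℝ)) - K * √L ≤
    (X (4 * 2 ^ j) m ω : ℝ)}) J
  · intro j
    exact meas_ge (h.mom.meas _) _
  · exact meas_ge (h.mom.meas _) _
  · intro j hj
    have hb : 8 * 2 ^ j ≤ m := by
      rw [hm]
      calc 8 * 2 ^ j = 2 ^ (j + 3) := by ring
        _ ≤ 2 ^ (J + 2) := Nat.pow_le_pow_right (by norm_num) (by omega)
    have hpos : 0 < 2 ^ j := by positivity
    have k1 := h1 (2 ^ j) m hpos hb le_rfl
    refine le_of_le_of_eq ?_ (h.ind (2 ^ j) (4 * 2 ^ j) m (by omega) (by omega) _ _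
      (first_meas h two_pow_mono (fun i => measT h (2 ^ i)
        {q : ℕ | c * log ((2 ^ i : ℕ) : ℝ) + x ≤ (q : ℝ)}) j)
      (measX h (4 * 2 ^ j) m
        {q : ℕ | c * (L - log ((4 * 2 ^ j : ℕ) : ℝ)) - K * √L ≤ (q : ℝ)})).symm
    rw [mul_comm]
    exact mul_le_mul_of_nonneg_left k1 measureReal_nonneg
  · intro j hj ω hω
    have hb : 8 * 2 ^ j ≤ m := by
      rw [hm]
      calc 8 * 2 ^ j = 2 ^ (j + 3) := by ring
        _ ≤ 2 ^ (J + 2) := Nat.pow_le_pow_right (by norm_num) (by omega)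
    obtain ⟨a1, a2⟩ := hω
    simp only [Set.mem_ofPred_eq] at a1 a2 ⊢
    have hpos : 0 < 2 ^ j := by positivity
    have a3 : (T (2 ^ j) ω : ℝ) + X (4 * 2 ^ j) m ω ≤ T m ω := by
      exact_mod_cast h.sup ω (2 ^ j) (4 * 2 ^ j) m (by omega) (by omega)
    have e1 : log ((4 * 2 ^ j : ℕ) : ℝ) = log ((2 ^ j : ℕ) : ℝ) + log 4 := by
      rw [← log_mul (by positivity) (by norm_num)]
      congr 1
      push_cast
      ring
    rw [e1] at a2
    have e2 : c * (L - (log ((2 ^ j : ℕ) : ℝ) + log 4)) =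
      c * L - c * log ((2 ^ j : ℕ) : ℝ) - c * log 4 := by ring
    have h3 : 1 ≤ √L := by
      rw [one_le_sqrt]
      exact h2
    have h4 : c * log 4 ≤ c * log 4 * √L := by
      have : 0 ≤ c * log 4 := by positivity
      nlinarith
    rw [add_mul]
    linarith

/-- maximal inequality, lower deviations -/
theorem maxD (h : Nst μ T X Lk F G c v d C) : ∃ K : ℝ, 0 < K ∧ ∀ᶠ J : ℕ in atTop, ∀ x : ℝ,
    ∀ k : ℕ, μ.real {ω | ∃ j < J, ω ∈ {ω | (T (2 * 2 ^ j) ω : ℝ) ≤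
        c * log ((2 * 2 ^ j : ℕ) : ℝ) - x}} ≤
      2 * (μ.real {ω | (T (2 ^ (J + 2)) ω : ℝ) ≤ c * log ((2 ^ (J + 2) : ℕ) : ℝ) -
        (x - K * √(log ((2 ^ (J + 2) : ℕ) : ℝ)) - (4 + 18 * k))} + J * (C * exp (-2 * k))) := by
  obtain ⟨K, hK, hE⟩ := incD h
  have hc := h.mom.hc
  refine ⟨K, hK, ?_⟩
  have hlim : Tendsto (fun J : ℕ => log ((2 ^ (J + 2) : ℕ) : ℝ)) atTop atTop := by
    refine tendsto_log_atTop.comp (tendsto_natCast_atTop_atTop.comp ?_)
    exact (tendsto_pow_atTop_atTop_of_one_lt (by norm_num : (1 : ℕ) < 2)).comp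
      (tendsto_add_atTop_nat 2)
  filter_upwards [hlim.eventually hE] with J h1
  intro x k
  set m : ℕ := 2 ^ (J + 2) with hm
  set L : ℝ := log (m : ℝ) with hL
  set B : Set Ω := {ω | (T m ω : ℝ) ≤ c * L - (x - K * √L - (4 + 18 * k))} ∪
    ⋃ j ∈ Finset.range J, (Lk (2 ^ j) k)ᶜ with hB
  have hBm : MeasurableSet B := by
    apply (meas_le (h.mom.meas _) _).union
    exact Finset.measurableSet_biUnion _ (fun i _ => (h.Lkm _ _).compl)
  have step : μ.real {ω | ∃ j < J, ω ∈ {ω | (T (2 * 2 ^ j) ω : ℝ) ≤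
        c * log ((2 * 2 ^ j : ℕ) : ℝ) - x}} ≤ 2 * μ.real B := by
    apply ott (A := fun j => {ω | (T (2 * 2 ^ j) ω : ℝ) ≤ c * log ((2 * 2 ^ j : ℕ) : ℝ) - x})
      (H := fun j => {ω | (X (4 * 2 ^ j) m ω : ℝ) ≤
      c * (L - log ((4 * 2 ^ j : ℕ) : ℝ)) + K * √L}) J
    · intro j
      exact meas_le (h.mom.meas _) _
    · exact hBm
    · intro j hj
      have hb : 8 * 2 ^ j ≤ m := by
        rw [hm]
        calc 8 * 2 ^ j = 2 ^ (j + 3) := by ring
          _ ≤ 2 ^ (J + 2) := Nat.pow_le_pow_right (by norm_num) (by omega)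
      have hpos : 0 < 2 ^ j := by positivity
      have k1 := h1 (2 ^ j) m hpos hb le_rfl
      refine le_of_le_of_eq ?_ (h.ind (2 * 2 ^ j) (4 * 2 ^ j) m (by omega) (by omega) _ _
        (first_meas h (s := fun j => 2 * 2 ^ j)
          (fun a b hab => Nat.mul_le_mul_left 2 (two_pow_mono hab))
          (fun i => measT h (2 * 2 ^ i) {q : ℕ | (q : ℝ) ≤ c * log ((2 * 2 ^ i : ℕ) : ℝ) - x}) j)
        (measX h (4 * 2 ^ j) m
          {q : ℕ | (q : ℝ) ≤ c * (L - log ((4 * 2 ^ j : ℕ) : ℝ)) + K * √L})).symm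
      rw [mul_comm]
      exact mul_le_mul_of_nonneg_left k1 measureReal_nonneg
    · intro j hj ω hω
      have hb : 8 * 2 ^ j ≤ m := by
        rw [hm]
        calc 8 * 2 ^ j = 2 ^ (j + 3) := by ring
          _ ≤ 2 ^ (J + 2) := Nat.pow_le_pow_right (by norm_num) (by omega)
      obtain ⟨a1, a2⟩ := hω
      simp only [Set.mem_ofPred_eq] at a1 a2
      have hpos : 0 < 2 ^ j := by positivity
      by_cases hk : ω ∈ Lk (2 ^ j) k
      · left
        show (T m ω : ℝ) ≤ c * L - (x - K * √L - (4 + 18 * k))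
        have a3 : (T m ω : ℝ) ≤ T (2 * 2 ^ j) ω + X (4 * 2 ^ j) m ω + (4 + 18 * k) := by
          exact_mod_cast h.link ω (2 ^ j) k m hpos hb hk
        have e1 : log ((2 * 2 ^ j : ℕ) : ℝ) ≤ log ((4 * 2 ^ j : ℕ) : ℝ) := by
          apply log_le_log (by positivity)
          exact_mod_cast (show 2 * 2 ^ j ≤ 4 * 2 ^ j by omega)
        have e3 := mul_le_mul_of_nonneg_left e1 hc.le
        have e2 : c * (L - log ((4 * 2 ^ j : ℕ) : ℝ)) = c * L - c * log ((4 * 2 ^ j : ℕ) : ℝ) := by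
          ring
        linarith
      · right
        simp only [Set.mem_iUnion, Finset.mem_range]
        exact ⟨j, hj, hk⟩
  refine step.trans ?_
  apply mul_le_mul_of_nonneg_left _ (by norm_num)
  refine (measureReal_union_le _ _).trans ?_
  gcongr
  refine (measureReal_biUnion_finset_le _ _).trans ?_
  calc ∑ j ∈ Finset.range J, μ.real (Lk (2 ^ j) k)ᶜ ≤ ∑ _j ∈ Finset.range J, C * exp (-2 * k) :=
        Finset.sum_le_sum (fun j _ => h.Lkp (2 ^ j) k (by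
          have : 0 < 2 ^ j := by positivity
          omega))
    _ = _ := by
        rw [Finset.sum_const, Finset.card_range, nsmul_eq_mul]

end

end Q292.Lil
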