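import Mathlib

/-! # The scale of the law of the iterated logarithm -/

namespace Q292.Lil
open Real Filter Topology

theorem le_of_sq_le (a b : ℝ) (h : a ^ 2 ≤ b ^ 2) (hb : 0 ≤ b) : a ≤ b :=
  le_of_abs_le (abs_le_of_sq_le_sq h hb)

/-- the scale of the law of the iterated logarithm, `L` is the logarithm of the radius -/
noncomputable def ph (v L : ℝ) : ℝ := √(2 * v * L * log (log L))

theorem ll_nonneg {L : ℝ} (h : exp 1 ≤ L) : 0 ≤ log (log L) := by
  apply log_nonneg
  rw [← log_exp 1]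
  exact log_le_log (exp_pos 1) h

theorem ll_mono {a b : ℝ} (h : exp 1 ≤ a) (hab : a ≤ b) : log (log a) ≤ log (log b) := by
  have h1 : 1 ≤ log a := by
    rw [← log_exp 1]
    exact log_le_log (exp_pos 1) h
  have h0 : 0 < a := lt_of_lt_of_le (exp_pos 1) h
  exact log_le_log (by linarith) (log_le_log h0 hab)

theorem ph_nonneg (v L : ℝ) : 0 ≤ ph v L := sqrt_nonneg _

theorem ph_mono {v a b : ℝ} (hv : 0 < v) (h : exp 1 ≤ a) (hab : a ≤ b) : ph v a ≤ ph v b := by
  unfold ph
  apply sqrt_le_sqrt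
  have h0 : 0 < a := lt_of_lt_of_le (exp_pos 1) h
  have h1 := ll_nonneg h
  have h2 := ll_mono h hab
  have h3 : 2 * v * a ≤ 2 * v * b := by nlinarith
  exact mul_le_mul h3 h2 h1 (by nlinarith)

theorem ph_sq {v L : ℝ} (hv : 0 < v) (h : exp 1 ≤ L) : ph v L ^ 2 = 2 * v * L * log (log L) := by
  unfold ph
  have h0 : 0 < L := lt_of_lt_of_le (exp_pos 1) h
  have h1 := ll_nonneg h
  exact sq_sqrt (by positivity)

theorem ll_tendsto : Tendsto (fun L : ℝ => log (log L)) atTop atTop :=
  tendsto_log_atTop.comp tendsto_log_atTop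

/-- `ph` dominates every multiple of the square root -/
theorem sqrt_le_ph {v : ℝ} (hv : 0 < v) (K ε : ℝ) (hε : 0 < ε) :
    ∀ᶠ L : ℝ in atTop, K * √L ≤ ε * ph v L := by
  have h := ll_tendsto.eventually_ge_atTop ((K / ε) ^ 2 / (2 * v))
  filter_upwards [h, eventually_ge_atTop (exp 1)] with L h1 h2
  have h0 : 0 < L := lt_of_lt_of_le (exp_pos 1) h2
  have h3 : (K / ε) ^ 2 * L ≤ 2 * v * L * log (log L) := by
    rw [div_le_iff₀ (by linarith)] at h1
    nlinarith
  have h4 : K / ε * √L ≤ ph v L := by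
    unfold ph
    apply le_sqrt_of_sq_le
    rw [mul_pow, sq_sqrt h0.le]
    exact h3
  calc K * √L = ε * (K / ε * √L) := by field_simp
    _ ≤ _ := mul_le_mul_of_nonneg_left h4 hε.le

/-- constants -/
theorem const_le_ph {v : ℝ} (hv : 0 < v) (K ε : ℝ) (hε : 0 < ε) :
    ∀ᶠ L : ℝ in atTop, K ≤ ε * ph v L := by
  filter_upwards [sqrt_le_ph hv |K| ε hε, eventually_ge_atTop 1] with L h1 h2
  have h3 : 1 ≤ √L := by
    rw [one_le_sqrt]
    exact h2
  have h4 := le_abs_self K
  have h5 := abs_nonneg K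
  nlinarith

/-- logarithms -/
theorem log_le_ph {v : ℝ} (hv : 0 < v) (K ε : ℝ) (hε : 0 < ε) :
    ∀ᶠ L : ℝ in atTop, K * log L ≤ ε * ph v L := by
  have h := (isLittleO_log_rpow_atTop (r := 1 / 2) (by norm_num)).def
    (c := 1) (by norm_num)
  filter_upwards [sqrt_le_ph hv |K| ε hε, h, eventually_ge_atTop 1] with L h1 h2 h3
  have h4 : 0 ≤ log L := log_nonneg h3
  rw [norm_of_nonneg h4, norm_of_nonneg (by positivity), one_mul, ← sqrt_eq_rpow] at h2
  have h5 : K * log L ≤ |K| * log L := mul_le_mul_of_nonneg_right (le_abs_self K) h4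
  have h6 : |K| * log L ≤ |K| * √L := mul_le_mul_of_nonneg_left h2 (abs_nonneg K)
  linarith

/-- `ph ^ 3 / L ^ 2` and `ph / L` tend to zero -/
theorem ph_cube {v : ℝ} (hv : 0 < v) (D : ℝ) :
    ∀ᶠ L : ℝ in atTop, D * ph v L ^ 3 ≤ L ^ 2 ∧ D * ph v L ≤ L := by
  have h1 := (isLittleO_pow_log_id_atTop (n := 3)).def (c := 1 / (D ^ 2 * (2 * v) ^ 3 + 1))
    (by positivity)
  have h1' := (isLittleO_pow_log_id_atTop (n := 1)).def (c := 1 / (D ^ 2 * (2 * v) + 1))
    (by positivity)
  filter_upwards [h1, h1', eventually_ge_atTop (exp 1)] with L h1 h1' h2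
  have h0 : 0 < L := lt_of_lt_of_le (exp_pos 1) h2
  have h5 : 1 ≤ log L := by
    rw [← log_exp 1]
    exact log_le_log (exp_pos 1) h2
  have h6 : 0 ≤ log (log L) := log_nonneg h5
  have h7 : log (log L) ≤ log L := (log_le_sub_one_of_pos (by linarith)).trans (by linarith)
  simp only [norm_eq_abs, id, pow_one] at h1 h1'
  rw [abs_of_nonneg (by positivity), abs_of_pos h0, one_div, inv_mul_eq_div,
    le_div_iff₀ (by positivity)] at h1
  rw [abs_of_nonneg (by positivity), abs_of_pos h0, one_div, inv_mul_eq_div,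
    le_div_iff₀ (by positivity)] at h1'
  have h8 : ph v L ^ 2 ≤ 2 * v * L * log L := by
    rw [ph_sq hv h2]
    exact mul_le_mul_of_nonneg_left h7 (by positivity)
  have hp0 := ph_nonneg v L
  have hl3 : 0 ≤ log L ^ 3 := by positivity
  constructor
  · refine le_of_sq_le _ _ ?_ (by positivity)
    have k2 : (ph v L ^ 2) ^ 3 ≤ (2 * v * L * log L) ^ 3 := pow_le_pow_left₀ (by positivity) h8 3
    calc (D * ph v L ^ 3) ^ 2 = D ^ 2 * (ph v L ^ 2) ^ 3 := by ring
      _ ≤ D ^ 2 * (2 * v * L * log L) ^ 3 := mul_le_mul_of_nonneg_left k2 (by positivity)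
      _ = L ^ 3 * (log L ^ 3 * (D ^ 2 * (2 * v) ^ 3)) := by ring
      _ ≤ L ^ 3 * L := mul_le_mul_of_nonneg_left (by linarith) (by positivity)
      _ = _ := by ring
  · refine le_of_sq_le _ _ ?_ (by positivity)
    calc (D * ph v L) ^ 2 = D ^ 2 * (ph v L ^ 2) := by ring
      _ ≤ D ^ 2 * (2 * v * L * log L) := mul_le_mul_of_nonneg_left h8 (by positivity)
      _ = L * (log L * (D ^ 2 * (2 * v))) := by ring
      _ ≤ L * L := mul_le_mul_of_nonneg_left (by linarith) (by positivity)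
      _ = _ := by ring

/-- neighbouring scales -/
theorem ph_add {v : ℝ} (hv : 0 < v) (b κ κ' : ℝ) (hb : 0 ≤ b) (h0 : 0 < κ) (h1 : κ < κ') :
    ∀ᶠ L : ℝ in atTop, κ * ph v (L + b) ≤ κ' * ph v L := by
  set ε : ℝ := (κ' - κ) / (2 * κ) with hε
  have hε0 : 0 < ε := div_pos (by linarith) (by linarith)
  have hKε : κ * (1 + ε) ≤ κ' := by
    rw [hε]
    have : κ * (1 + (κ' - κ) / (2 * κ)) = (κ + κ') / 2 := by
      field_simp
      ring
    linarith
  filter_upwards [eventually_ge_atTop (b / ε), eventually_ge_atTop (exp 1),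
    tendsto_log_atTop.eventually_ge_atTop (exp 1)] with L k2 k3 k4
  have hL0 : 0 < L := lt_of_lt_of_le (exp_pos 1) k3
  have he : (1 : ℝ) ≤ exp 1 := one_le_exp (by norm_num)
  have hx1 : 1 ≤ log L := by linarith
  have hy1 : 1 ≤ log (log L) := by
    rw [← log_exp 1]
    exact log_le_log (exp_pos 1) k4
  have hbL : L + b ≤ (1 + ε) * L := by
    have := (div_le_iff₀ hε0).1 k2
    linarith
  have hlog1 : log (1 + ε) ≤ ε := by
    have := log_le_sub_one_of_pos (x := 1 + ε) (by linarith)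
    linarith
  have hlog : log (L + b) ≤ (1 + ε) * log L := by
    have h2 : log (L + b) ≤ log ((1 + ε) * L) := log_le_log (by linarith) hbL
    rw [log_mul (by linarith) hL0.ne'] at h2
    nlinarith
  have hlL : 0 < log (L + b) := by
    have := log_le_log hL0 (show L ≤ L + b by linarith)
    linarith
  have hll : log (log (L + b)) ≤ (1 + ε) * log (log L) := by
    have h2 : log (log (L + b)) ≤ log ((1 + ε) * log L) := log_le_log hlL hlog
    rw [log_mul (by linarith) (by linarith)] at h2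
    nlinarith
  have h4 : ph v (L + b) ≤ (1 + ε) * ph v L := by
    unfold ph
    rw [sqrt_le_left (by positivity), mul_pow, sq_sqrt (by positivity)]
    have h5 : 0 ≤ log (log (L + b)) := by
      have := ll_mono k3 (show L ≤ L + b by linarith)
      linarith
    calc 2 * v * (L + b) * log (log (L + b)) ≤ 2 * v * ((1 + ε) * L) * ((1 + ε) * log (log L)) :=
          mul_le_mul (mul_le_mul_of_nonneg_left hbL (by positivity)) hll h5 (by positivity)
      _ = _ := by ring
  calc κ * ph v (L + b) ≤ κ * ((1 + ε) * ph v L) := mul_le_mul_of_nonneg_left h4 h0.le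
    _ = κ * (1 + ε) * ph v L := by ring
    _ ≤ _ := mul_le_mul_of_nonneg_right hKε (ph_nonneg _ _)

/-- smaller scales -/
theorem ph_div {v L q : ℝ} (hv : 0 < v) (hq : 1 ≤ q) (h : exp 1 ≤ L / q) :
    √q * ph v (L / q) ≤ ph v L := by
  have hq0 : 0 < q := by linarith
  have hLq : 0 < L / q := lt_of_lt_of_le (exp_pos 1) h
  have hL : L / q ≤ L := by
    have : 0 < L := by
      have := (lt_div_iff₀ hq0).1 hLq
      linarith
    exact div_le_self this.le hq
  unfold ph
  rw [← sqrt_mul hq0.le]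
  apply sqrt_le_sqrt
  have h1 := ll_mono h hL
  have h2 := ll_nonneg h
  have h3 : 0 < L := by linarith
  calc q * (2 * v * (L / q) * log (log (L / q))) = 2 * v * L * log (log (L / q)) := by
        field_simp
    _ ≤ _ := mul_le_mul_of_nonneg_left h1 (by positivity)

end Q292.Lil
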