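import Pool.Agent.Q292.Lil.Ott

/-! # The upper half of the law of the iterated logarithm -/

set_option linter.unusedSectionVars false

namespace Q292.Lil
open Real Filter Topology MeasureTheory
open Pool.Agent.H450R4.NL (cheb meas_ge meas_le)

theorem sqrt_sc {ρ : ℝ} (hρ : 0 ≤ ρ) (L : ℝ) : ρ * √L = √(ρ ^ 2 * L) := by
  rw [sqrt_mul (by positivity), sqrt_sq hρ]

theorem loglam {ρ : ℝ} (hρ : 1 < ρ) (k : ℕ) :
    log (ρ ^ k * log 2) = k * log ρ + log (log 2) := by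
  have : 0 < log 2 := log_pos (by norm_num)
  rw [log_mul (by positivity) this.ne', log_pow]

theorem lam_tendsto {ρ : ℝ} (hρ : 1 < ρ) : Tendsto (fun k : ℕ => ρ ^ k * log 2) atTop atTop :=
  (tendsto_pow_atTop_atTop_of_one_lt hρ).atTop_mul_const (log_pos (by norm_num))

theorem log_ge {ρ : ℝ} (hρ : 1 < ρ) : ∀ᶠ k : ℕ in atTop,
    log ρ / 2 * k ≤ log (ρ ^ k * log 2) := by
  have h1 : 0 < log ρ := log_pos hρ
  have h2 : Tendsto (fun k : ℕ => log ρ / 2 * (k : ℝ)) atTop atTop :=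
    tendsto_natCast_atTop_atTop.const_mul_atTop (by linarith)
  filter_upwards [h2.eventually_ge_atTop (-log (log 2))] with k hk
  rw [loglam hρ]
  linarith

theorem bc_sum {ρ p : ℝ} (hρ : 1 < ρ) (hp : 1 < p) :
    Summable (fun k : ℕ => exp (-(p * log (log (ρ ^ k * log 2))))) := by
  have h1 : 0 < log ρ := log_pos hρ
  have h2 : Summable (fun k : ℕ => exp (-(p * log (log ρ / 2))) * (1 / (k : ℝ) ^ p)) :=
    (summable_one_div_nat_rpow.2 hp).mul_left _
  refine Summable.of_norm_bounded_eventually_nat h2 ?_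
  filter_upwards [log_ge hρ, eventually_ge_atTop 1] with k hk hk1
  have hk0 : (0 : ℝ) < k := by exact_mod_cast hk1
  rw [norm_of_nonneg (exp_pos _).le, one_div, rpow_def_of_pos hk0, ← exp_neg, ← exp_add]
  apply exp_le_exp.2
  have h3 : log (log ρ / 2 * k) ≤ log (log (ρ ^ k * log 2)) := log_le_log (by positivity) hk
  rw [log_mul (by positivity) hk0.ne'] at h3
  nlinarith

theorem ae_of_sum {Ω : Type*} [MeasurableSpace Ω] {μ : Measure Ω} [IsProbabilityMeasure μ]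
    {S : ℕ → Set Ω} {b : ℕ → ℝ} (hb : Summable b) (h : ∀ᶠ k in atTop, μ.real (S k) ≤ b k) :
    ∀ᵐ ω ∂μ, ∀ᶠ k in atTop, ω ∉ S k := by
  have hsum : Summable (fun j => μ.real (S j)) := by
    refine Summable.of_norm_bounded_eventually_nat hb ?_
    filter_upwards [h] with j hj
    rwa [norm_of_nonneg measureReal_nonneg]
  apply ae_eventually_notMem
  have h2 : (fun j => μ (S j)) = fun j => ENNReal.ofReal (μ.real (S j)) := by
    funext j
    rw [ofReal_measureReal]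
  rw [h2]
  exact hsum.tsum_ofReal_ne_top

theorem near {ρ : ℝ} (hρ : 1 < ρ) (k0 : ℕ) : ∀ᶠ j : ℕ in atTop, ∃ k : ℕ, k0 ≤ k ∧
    ρ ^ k ≤ (j : ℝ) ∧ (j : ℝ) < ρ ^ (k + 1) := by
  obtain ⟨j0, hj0⟩ := exists_nat_ge (ρ ^ k0)
  filter_upwards [eventually_ge_atTop (max j0 1)] with j hj
  have h1 : 1 ≤ j := le_trans (le_max_right _ _) hj
  have h2 : j0 ≤ j := le_trans (le_max_left _ _) hj
  have h1' : (1 : ℝ) ≤ j := by exact_mod_cast h1
  have h2' : (j0 : ℝ) ≤ j := by exact_mod_cast h2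
  obtain ⟨k, hk1, hk2⟩ := exists_nat_pow_near h1' hρ
  refine ⟨k, ?_, hk1, hk2⟩
  by_contra hcon
  push Not at hcon
  have h3 : ρ ^ (k + 1) ≤ ρ ^ k0 := pow_le_pow_right₀ hρ.le (by omega)
  linarith

section
variable {Ω : Type*} [m0 : MeasurableSpace Ω] {μ : Measure Ω} [IsProbabilityMeasure μ]
  {T : ℕ → Ω → ℕ} {X : ℕ → ℕ → Ω → ℕ} {Lk : ℕ → ℕ → Set Ω} {F : ℕ → MeasurableSpace Ω}
  {G : ℕ → ℕ → MeasurableSpace Ω} {c v d C : ℝ}

theorem top_scale {ρ : ℝ} (hρ : 1 < ρ) : ∀ᶠ k : ℕ in atTop,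
    log ((2 ^ (⌈ρ ^ (k + 1)⌉₊ + 1 + 2) : ℕ) : ℝ) ≤ ρ ^ 2 * (ρ ^ k * log 2) := by
  have h1 : Tendsto (fun k : ℕ => (ρ - 1) * ρ ^ (k + 1)) atTop atTop :=
    ((tendsto_pow_atTop_atTop_of_one_lt hρ).comp (tendsto_add_atTop_nat 1)).const_mul_atTop
      (by linarith)
  filter_upwards [h1.eventually_ge_atTop 4] with k hk
  have h2 : 0 < log 2 := log_pos (by norm_num)
  push_cast
  rw [log_pow]
  have h3 := (Nat.ceil_lt_add_one (show 0 ≤ ρ ^ (k + 1) by positivity)).le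
  push_cast
  have h4 : (⌈ρ ^ (k + 1)⌉₊ : ℝ) + 1 + 2 ≤ ρ ^ 2 * ρ ^ k := by
    have e : ρ ^ 2 * ρ ^ k = ρ ^ (k + 1) + (ρ - 1) * ρ ^ (k + 1) := by ring
    linarith
  calc ((⌈ρ ^ (k + 1)⌉₊ : ℝ) + 1 + 2) * log 2 ≤ (ρ ^ 2 * ρ ^ k) * log 2 :=
        mul_le_mul_of_nonneg_right h4 h2.le
    _ = _ := by ring

theorem ceil_tendsto {ρ : ℝ} (hρ : 1 < ρ) :
    Tendsto (fun k : ℕ => ⌈ρ ^ (k + 1)⌉₊ + 1) atTop atTop := by
  refine (tendsto_add_atTop_nat 1).comp ?_
  exact tendsto_nat_ceil_atTop.comp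
    ((tendsto_pow_atTop_atTop_of_one_lt hρ).comp (tendsto_add_atTop_nat 1))

theorem upper (h : Nst μ T X Lk F G c v d C) {κ : ℝ} (hκ : 1 < κ) :
    ∀ᵐ ω ∂μ, ∀ᶠ n : ℕ in atTop, (T n ω : ℝ) ≤ c * log n + κ * ph v (log n) := by
  have hc := h.mom.hc
  have hv := h.mom.hv
  have hC := h.mom.hC
  have hlog2 : 0 < log 2 := log_pos (by norm_num)
  set κ2 : ℝ := (κ + 1) / 2 with hκ2
  set κ1 : ℝ := (κ2 + 1) / 2 with hκ1
  have a1 : 1 < κ2 := by rw [hκ2]; linarith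
  have a2 : κ2 < κ := by rw [hκ2]; linarith
  have a3 : 1 < κ1 := by rw [hκ1]; linarith
  have a4 : κ1 < κ2 := by rw [hκ1]; linarith
  set ρ : ℝ := √κ1 with hρd
  have hρ2 : ρ ^ 2 = κ1 := sq_sqrt (by linarith)
  have hρ : 1 < ρ := by
    rw [hρd, lt_sqrt (by norm_num)]
    linarith
  obtain ⟨K, hK, hmax⟩ := maxU h
  set E : ℕ → Set Ω := fun k => {ω | ∃ j < ⌈ρ ^ (k + 1)⌉₊ + 1, ω ∈
    {ω | c * log ((2 ^ j : ℕ) : ℝ) + κ2 * ph v (ρ ^ k * log 2) ≤ (T (2 ^ j) ω : ℝ)}} with hE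
  have hsum : Summable (fun k : ℕ => 2 * (C * exp 1) * exp (-(κ1 * log (log (ρ ^ k * log 2))))) :=
    (bc_sum hρ a3).mul_left _
  have hbound : ∀ᶠ k in atTop, μ.real (E k) ≤
      2 * (C * exp 1) * exp (-(κ1 * log (log (ρ ^ k * log 2)))) := by
    filter_upwards [(ceil_tendsto hρ).eventually hmax, top_scale hρ,
      (lam_tendsto hρ).eventually (tlU h.mom (M := 1 / κ1) (κ := κ1) (by positivity) (by linarith)),
      (lam_tendsto hρ).eventually (sqrt_le_ph hv (K * ρ) (κ2 - κ1) (by linarith))]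
      with k h1 h2 h3 h4
    set L : ℝ := ρ ^ k * log 2 with hL
    set m : ℕ := 2 ^ (⌈ρ ^ (k + 1)⌉₊ + 1 + 2) with hm
    have hL0 : 0 < L := by positivity
    have k1 := h1 (κ2 * ph v L)
    refine k1.trans ?_
    have k2 : K * √(log (m : ℝ)) ≤ (κ2 - κ1) * ph v L := by
      have : √(log (m : ℝ)) ≤ ρ * √L := by
        rw [sqrt_sc (show 0 ≤ ρ by linarith) L]
        exact sqrt_le_sqrt h2
      calc K * √(log (m : ℝ)) ≤ K * (ρ * √L) := mul_le_mul_of_nonneg_left this hK.le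
        _ = K * ρ * √L := by ring
        _ ≤ _ := h4
    have k3 : μ.real {ω | c * log (m : ℝ) + (κ2 * ph v L - K * √(log (m : ℝ))) ≤ (T m ω : ℝ)} ≤
        μ.real {ω | c * log (m : ℝ) + κ1 * ph v L ≤ (T m ω : ℝ)} := by
      apply measureReal_mono _ (measure_ne_top _ _)
      intro ω hω
      simp only [Set.mem_ofPred_eq] at hω ⊢
      linarith
    have k4 := h3 m (Nat.one_le_two_pow) (by
      rw [one_div, inv_mul_le_iff₀ (by linarith)]
      rw [hρ2] at h2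
      exact h2)
    have e : κ1 ^ 2 * (1 / κ1) * log (log L) = κ1 * log (log L) := by
      field_simp
    rw [e] at k4
    linarith
  have hpow : Tendsto (fun n : ℕ => Nat.log 2 n + 1) atTop atTop := by
    refine (tendsto_add_atTop_nat 1).comp ?_
    apply tendsto_atTop.2
    intro b
    filter_upwards [eventually_ge_atTop (2 ^ b)] with n hn
    exact Nat.le_log_of_pow_le (by norm_num) hn
  filter_upwards [ae_of_sum hsum hbound] with ω hω
  obtain ⟨k0, hk0⟩ := eventually_atTop.1 hω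
  obtain ⟨k1, hk1⟩ := eventually_atTop.1 ((lam_tendsto hρ).eventually_ge_atTop (exp 1))
  have hlogn : Tendsto (fun n : ℕ => log (n : ℝ)) atTop atTop :=
    tendsto_log_atTop.comp tendsto_natCast_atTop_atTop
  filter_upwards [hpow.eventually (near hρ (max k0 k1)), eventually_ge_atTop 1,
    hlogn.eventually (ph_add hv (log 2) κ2 ((κ2 + κ) / 2) hlog2.le (by linarith) (by linarith)),
    hlogn.eventually (const_le_ph hv (c * log 2) ((κ - κ2) / 2) (by linarith))] with n hn hn1 hn2 hn3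
  obtain ⟨k, b1, b2, b3⟩ := hn
  set j : ℕ := Nat.log 2 n + 1 with hj
  have hjn : n < 2 ^ j := Nat.lt_pow_succ_log_self (by norm_num) n
  have hjn' : 2 ^ j ≤ 2 * n := by
    rw [hj, pow_succ]
    have := Nat.pow_log_le_self 2 (show n ≠ 0 by omega)
    omega
  have hn0 : (0 : ℝ) < n := by exact_mod_cast hn1
  have b4 := hk0 k (le_trans (le_max_left _ _) b1)
  have b5 := hk1 k (le_trans (le_max_right _ _) b1)
  have b6 : (T (2 ^ j) ω : ℝ) < c * log ((2 ^ j : ℕ) : ℝ) + κ2 * ph v (ρ ^ k * log 2) := by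
    by_contra hcon
    push Not at hcon
    apply b4
    refine ⟨j, ?_, hcon⟩
    have := Nat.le_ceil (ρ ^ (k + 1))
    have h3 : (j : ℝ) < ((⌈ρ ^ (k + 1)⌉₊ + 1 : ℕ) : ℝ) := by
      push_cast
      linarith
    exact_mod_cast h3
  have b7 : (T n ω : ℝ) ≤ T (2 ^ j) ω := by exact_mod_cast h.mom.mono ω hjn.le
  have b8 : log ((2 ^ j : ℕ) : ℝ) ≤ log n + log 2 := by
    rw [← log_mul hn0.ne' (by norm_num)]
    apply log_le_log (by positivity)
    have : ((2 ^ j : ℕ) : ℝ) ≤ ((2 * n : ℕ) : ℝ) := by exact_mod_cast hjn'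
    refine this.trans (le_of_eq ?_)
    push_cast
    ring
  have b9 : ρ ^ k * log 2 ≤ log n + log 2 := by
    refine le_trans ?_ b8
    push_cast
    rw [log_pow]
    exact mul_le_mul_of_nonneg_right b2 hlog2.le
  have b10 : κ2 * ph v (ρ ^ k * log 2) ≤ κ2 * ph v (log n + log 2) :=
    mul_le_mul_of_nonneg_left (ph_mono hv b5 b9) (by linarith)
  have b11 : c * log ((2 ^ j : ℕ) : ℝ) ≤ c * (log n + log 2) := mul_le_mul_of_nonneg_left b8 hc.le
  have e1 : κ * ph v (log n) = (κ2 + κ) / 2 * ph v (log n) + (κ - κ2) / 2 * ph v (log n) := by ring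
  rw [e1]
  linarith

theorem lower (h : Nst μ T X Lk F G c v d C) {κ : ℝ} (hκ : 1 < κ) :
    ∀ᵐ ω ∂μ, ∀ᶠ n : ℕ in atTop, c * log n - κ * ph v (log n) ≤ (T n ω : ℝ) := by
  have hc := h.mom.hc
  have hv := h.mom.hv
  have hC := h.mom.hC
  have hlog2 : 0 < log 2 := log_pos (by norm_num)
  set κ2 : ℝ := (κ + 1) / 2 with hκ2
  set κ1 : ℝ := (κ2 + 1) / 2 with hκ1
  have a1 : 1 < κ2 := by rw [hκ2]; linarith
  have a2 : κ2 < κ := by rw [hκ2]; linarith
  have a3 : 1 < κ1 := by rw [hκ1]; linarith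
  have a4 : κ1 < κ2 := by rw [hκ1]; linarith
  set ρ : ℝ := √κ1 with hρd
  have hρ2 : ρ ^ 2 = κ1 := sq_sqrt (by linarith)
  have hρ : 1 < ρ := by
    rw [hρd, lt_sqrt (by norm_num)]
    linarith
  obtain ⟨K, hK, hmax⟩ := maxD h
  set E : ℕ → Set Ω := fun k => {ω | ∃ j < ⌈ρ ^ (k + 1)⌉₊ + 1, ω ∈
    {ω | (T (2 * 2 ^ j) ω : ℝ) ≤ c * log ((2 * 2 ^ j : ℕ) : ℝ) - κ2 * ph v (ρ ^ k * log 2)}}
    with hE
  have hsum : Summable (fun k : ℕ => 2 * (C * exp 1) *
      exp (-(κ1 * log (log (ρ ^ k * log 2)))) + 2 * C * (ρ⁻¹) ^ k) :=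
    ((bc_sum hρ a3).mul_left _).add ((summable_geometric_of_lt_one (by positivity)
      (inv_lt_one_of_one_lt₀ hρ)).mul_left _)
  have hbound : ∀ᶠ k in atTop, μ.real (E k) ≤
      2 * (C * exp 1) * exp (-(κ1 * log (log (ρ ^ k * log 2)))) + 2 * C * (ρ⁻¹) ^ k := by
    filter_upwards [(ceil_tendsto hρ).eventually hmax, top_scale hρ,
      (lam_tendsto hρ).eventually (tlD h.mom (M := 1 / κ1) (κ := κ1) (by positivity) (by linarith)),
      (lam_tendsto hρ).eventually (sqrt_le_ph hv (K * ρ) ((κ2 - κ1) / 3) (by linarith)),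
      (lam_tendsto hρ).eventually (log_le_ph hv 18 ((κ2 - κ1) / 3) (by linarith)),
      (lam_tendsto hρ).eventually (const_le_ph hv (22 + 18 * log (ρ ^ 2 / log 2))
        ((κ2 - κ1) / 3) (by linarith)), (lam_tendsto hρ).eventually_ge_atTop 1]
      with k h1 h2 h3 h4 h5 h6 h7
    set L : ℝ := ρ ^ k * log 2 with hL
    set J : ℕ := ⌈ρ ^ (k + 1)⌉₊ + 1 with hJ
    set m : ℕ := 2 ^ (J + 2) with hm
    have hL0 : 0 < L := by positivity
    have hJ1 : (1 : ℝ) ≤ J := by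
      rw [hJ]
      push_cast
      have : (0 : ℝ) ≤ (⌈ρ ^ (k + 1)⌉₊ : ℝ) := by positivity
      linarith
    set q : ℕ := ⌈log J⌉₊ with hq
    have k1 := h1 (κ2 * ph v L) q
    refine k1.trans ?_
    have k2 : K * √(log (m : ℝ)) ≤ (κ2 - κ1) / 3 * ph v L := by
      have : √(log (m : ℝ)) ≤ ρ * √L := by
        rw [sqrt_sc (show 0 ≤ ρ by linarith) L]
        exact sqrt_le_sqrt h2
      calc K * √(log (m : ℝ)) ≤ K * (ρ * √L) := mul_le_mul_of_nonneg_left this hK.le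
        _ = K * ρ * √L := by ring
        _ ≤ _ := h4
    have hJL : (J : ℝ) ≤ ρ ^ 2 / log 2 * L := by
      have e : log (m : ℝ) = (J + 2) * log 2 := by
        rw [hm]
        push_cast
        rw [log_pow]
        push_cast
        ring
      rw [e] at h2
      have : (J : ℝ) * log 2 ≤ ρ ^ 2 * L := by nlinarith
      rw [div_mul_eq_mul_div, le_div_iff₀ hlog2]
      exact this
    have hqJ : (q : ℝ) ≤ log J + 1 := (Nat.ceil_lt_add_one (log_nonneg hJ1)).le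
    have hlJ : log (J : ℝ) ≤ log (ρ ^ 2 / log 2) + log L := by
      rw [← log_mul (by positivity) hL0.ne']
      exact log_le_log (by linarith) hJL
    have k5 : 4 + 18 * (q : ℝ) ≤ 2 * ((κ2 - κ1) / 3 * ph v L) := by
      linarith
    have k3 : μ.real {ω | (T m ω : ℝ) ≤ c * log (m : ℝ) -
        (κ2 * ph v L - K * √(log (m : ℝ)) - (4 + 18 * (q : ℝ)))} ≤
        μ.real {ω | (T m ω : ℝ) ≤ c * log (m : ℝ) - κ1 * ph v L} := by
      apply measureReal_mono _ (measure_ne_top _ _)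
      intro ω hω
      simp only [Set.mem_ofPred_eq] at hω ⊢
      linarith
    have k4 := h3 m (Nat.one_le_two_pow) (by
      rw [one_div, inv_mul_le_iff₀ (by linarith)]
      rw [hρ2] at h2
      exact h2)
    have e : κ1 ^ 2 * (1 / κ1) * log (log L) = κ1 * log (log L) := by
      field_simp
    rw [e] at k4
    have k6 : (J : ℝ) * (C * exp (-2 * (q : ℝ))) ≤ C * (ρ⁻¹) ^ k := by
      have hq2 : log (J : ℝ) ≤ q := Nat.le_ceil _
      have e2 : exp (-2 * (q : ℝ)) ≤ ((J : ℝ) ^ 2)⁻¹ := by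
        rw [← exp_log (show 0 < (J : ℝ) ^ 2 by positivity), ← exp_neg, log_pow]
        apply exp_le_exp.2
        push_cast
        linarith
      have e3 : ρ ^ k ≤ J := by
        have := Nat.le_ceil (ρ ^ (k + 1))
        have e4 : ρ ^ k ≤ ρ ^ (k + 1) := pow_le_pow_right₀ hρ.le (by omega)
        rw [hJ]
        push_cast
        linarith
      calc (J : ℝ) * (C * exp (-2 * (q : ℝ))) ≤ (J : ℝ) * (C * ((J : ℝ) ^ 2)⁻¹) := by gcongr
        _ = C * (J : ℝ)⁻¹ := by field_simp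
        _ ≤ C * (ρ ^ k)⁻¹ := by
            apply mul_le_mul_of_nonneg_left _ hC.le
            exact inv_anti₀ (by positivity) e3
        _ = _ := by rw [inv_pow]
    linarith
  have hpow : Tendsto (fun n : ℕ => Nat.log 2 n - 1) atTop atTop := by
    apply tendsto_atTop.2
    intro b
    filter_upwards [eventually_ge_atTop (2 ^ (b + 1))] with n hn
    have := Nat.le_log_of_pow_le (b := 2) (by norm_num) hn
    omega
  filter_upwards [ae_of_sum hsum hbound] with ω hω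
  obtain ⟨k0, hk0⟩ := eventually_atTop.1 hω
  obtain ⟨k1, hk1⟩ := eventually_atTop.1 ((lam_tendsto hρ).eventually_ge_atTop (exp 1))
  have hlogn : Tendsto (fun n : ℕ => log (n : ℝ)) atTop atTop :=
    tendsto_log_atTop.comp tendsto_natCast_atTop_atTop
  filter_upwards [hpow.eventually (near hρ (max k0 k1)), eventually_ge_atTop 2,
    hlogn.eventually (const_le_ph hv (c * log 2) (κ - κ2) (by linarith))] with n hn hn1 hn3
  obtain ⟨k, b1, b2, b3⟩ := hn
  have hlog1 : 1 ≤ Nat.log 2 n := Nat.le_log_of_pow_le (by norm_num) (by omega)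
  obtain ⟨j, hj⟩ : ∃ j : ℕ, Nat.log 2 n = j + 1 := ⟨Nat.log 2 n - 1, by omega⟩
  rw [hj, Nat.add_sub_cancel] at b2 b3
  have hjn : 2 * 2 ^ j ≤ n := by
    have := Nat.pow_log_le_self 2 (show n ≠ 0 by omega)
    rw [hj, pow_succ] at this
    omega
  have hjn' : n ≤ 2 * (2 * 2 ^ j) := by
    have := Nat.lt_pow_succ_log_self (b := 2) (by norm_num) n
    rw [hj] at this
    have e : 2 ^ (j + 1 + 1) = 2 * (2 * 2 ^ j) := by ring
    omega
  have hn0 : (0 : ℝ) < n := by exact_mod_cast (show 0 < n by omega)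
  have b4 := hk0 k (le_trans (le_max_left _ _) b1)
  have b5 := hk1 k (le_trans (le_max_right _ _) b1)
  have b6 : c * log ((2 * 2 ^ j : ℕ) : ℝ) - κ2 * ph v (ρ ^ k * log 2) < (T (2 * 2 ^ j) ω : ℝ) := by
    by_contra hcon
    push Not at hcon
    apply b4
    refine ⟨j, ?_, hcon⟩
    have := Nat.le_ceil (ρ ^ (k + 1))
    have h3 : (j : ℝ) < ((⌈ρ ^ (k + 1)⌉₊ + 1 : ℕ) : ℝ) := by
      push_cast
      linarith
    exact_mod_cast h3
  have b7 : (T (2 * 2 ^ j) ω : ℝ) ≤ T n ω := by exact_mod_cast h.mom.mono ω hjn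
  have b8 : log n - log 2 ≤ log ((2 * 2 ^ j : ℕ) : ℝ) := by
    have : log (n : ℝ) ≤ log (2 * ((2 * 2 ^ j : ℕ) : ℝ)) := by
      apply log_le_log hn0
      exact_mod_cast hjn'
    rw [log_mul (by norm_num) (by positivity)] at this
    linarith
  have b9 : ρ ^ k * log 2 ≤ log n := by
    have h1 : ρ ^ k * log 2 ≤ j * log 2 := mul_le_mul_of_nonneg_right b2 hlog2.le
    have h2 : (j : ℝ) * log 2 = log ((2 ^ j : ℕ) : ℝ) := by
      push_cast
      rw [log_pow]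
    rw [h2] at h1
    refine h1.trans (log_le_log (by positivity) ?_)
    exact_mod_cast (show 2 ^ j ≤ n by omega)
  have b10 : κ2 * ph v (ρ ^ k * log 2) ≤ κ2 * ph v (log n) :=
    mul_le_mul_of_nonneg_left (ph_mono hv b5 b9) (by linarith)
  have b11 : c * (log n - log 2) ≤ c * log ((2 * 2 ^ j : ℕ) : ℝ) := mul_le_mul_of_nonneg_left b8 hc.le
  have e1 : κ * ph v (log n) = κ2 * ph v (log n) + (κ - κ2) * ph v (log n) := by ring
  rw [e1]
  linarith

end

end Q292.Lil
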